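import Mathlib

/-!
Unions of rotated and translated copies of the triangular lattice: tools for dense forests.
The plane is `ℂ`.
-/

namespace Pool.Agent.Run7.h810.DF

open Complex ComplexConjugate

/-- The vector `(1/2, √3/2)`. -/
noncomputable def om : ℂ := ⟨1 / 2, Real.sqrt 3 / 2⟩

/-- The lattice `Λ = ℤ(1,0) + ℤ(1/2, √3/2)`. -/
def lattice : Set ℂ := {z | ∃ m n : ℤ, z = m + n * om}

/-- `TBG(k,(x_i),(θ_i))`: the union of the sets `r_{θ_i}(Λ) + x_i`, where `r_θ` is the rotation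
by the angle `θ`, an element of `ℝ/2πℤ` (multiplication by `exp(iθ)`). -/
noncomputable def TBG (k : ℕ) (x : Fin k → ℂ) (θ : Fin k → AddCircle (2 * Real.pi)) : Set ℂ :=
  {z | ∃ i : Fin k, ∃ μ ∈ lattice, z = (AddCircle.toCircle (θ i) : ℂ) * μ + x i}

lemma om_re : om.re = 1 / 2 := rfl

lemma om_im : om.im = Real.sqrt 3 / 2 := rfl

lemma sqrt3_pos : 0 < Real.sqrt 3 := by positivity

lemma sqrt3_sq : Real.sqrt 3 ^ 2 = 3 := Real.sq_sqrt (by norm_num)

lemma om_sq : om ^ 2 = om - 1 := by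
  apply Complex.ext
  · simp [sq, om_re, om_im]
    nlinarith [sqrt3_sq]
  · simp [sq, om_re, om_im]
    ring

lemma conj_om : conj om = 1 - om := by
  apply Complex.ext
  · simp [om_re]; norm_num
  · simp

lemma coord_zero (m n : ℤ) (h : (m : ℂ) + n * om = 0) : m = 0 ∧ n = 0 := by
  have h1 := congrArg Complex.re h
  have h2 := congrArg Complex.im h
  simp [om_re, om_im] at h1 h2
  have hn : n = 0 := h2
  subst hn
  simp at h1
  exact ⟨h1, rfl⟩

lemma zero_mem : (0 : ℂ) ∈ lattice := ⟨0, 0, by simp⟩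

lemma one_mem : (1 : ℂ) ∈ lattice := ⟨1, 0, by simp⟩

lemma om_mem : om ∈ lattice := ⟨0, 1, by simp⟩

lemma nat_mem (n : ℕ) : (n : ℂ) ∈ lattice := ⟨n, 0, by simp⟩

lemma add_mem {a b : ℂ} (ha : a ∈ lattice) (hb : b ∈ lattice) : a + b ∈ lattice := by
  obtain ⟨m, n, rfl⟩ := ha
  obtain ⟨p, q, rfl⟩ := hb
  exact ⟨m + p, n + q, by push_cast; ring⟩

lemma neg_mem {a : ℂ} (ha : a ∈ lattice) : -a ∈ lattice := by
  obtain ⟨m, n, rfl⟩ := ha
  exact ⟨-m, -n, by push_cast; ring⟩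

lemma sub_mem {a b : ℂ} (ha : a ∈ lattice) (hb : b ∈ lattice) : a - b ∈ lattice := by
  rw [sub_eq_add_neg]
  exact add_mem ha (neg_mem hb)

lemma mul_mem {a b : ℂ} (ha : a ∈ lattice) (hb : b ∈ lattice) : a * b ∈ lattice := by
  obtain ⟨m, n, rfl⟩ := ha
  obtain ⟨p, q, rfl⟩ := hb
  refine ⟨m * p - n * q, m * q + n * p + n * q, ?_⟩
  push_cast
  linear_combination (n * q : ℂ) * om_sq

lemma conj_mem {a : ℂ} (ha : a ∈ lattice) : conj a ∈ lattice := by
  obtain ⟨m, n, rfl⟩ := ha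
  refine ⟨m + n, -n, ?_⟩
  rw [map_add, map_mul, conj_om]
  simp
  ring

lemma countable_lattice : lattice.Countable := by
  have : lattice = Set.range (fun q : ℤ × ℤ => ((q.1 : ℂ) + q.2 * om)) := by
    ext z
    constructor
    · rintro ⟨m, n, rfl⟩
      exact ⟨(m, n), rfl⟩
    · rintro ⟨⟨m, n⟩, rfl⟩
      exact ⟨m, n, rfl⟩
  rw [this]
  exact Set.countable_range _

/-- The norm squared of a nonzero lattice point is a positive integer. -/
lemma normSq_int {a : ℂ} (ha : a ∈ lattice) (h0 : a ≠ 0) : ∃ N : ℕ, 0 < N ∧ a * conj a = N := by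
  have h1 : ∃ N : ℤ, a * conj a = N := by
    obtain ⟨m, n, rfl⟩ := ha
    refine ⟨m ^ 2 + m * n + n ^ 2, ?_⟩
    rw [map_add, map_mul, conj_om]
    simp
    linear_combination (-(n : ℂ) ^ 2) * om_sq
  obtain ⟨N, hN⟩ := h1
  have h2 : (0 : ℝ) < N := by
    have h3 : (N : ℝ) = Complex.normSq a := by
      have := Complex.mul_conj a
      rw [this] at hN
      exact_mod_cast hN.symm
    rw [h3]
    exact Complex.normSq_pos.mpr h0
  have h4 : 0 < N := by exact_mod_cast h2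
  refine ⟨N.toNat, by omega, ?_⟩
  rw [hN]
  have : ((N.toNat : ℤ) : ℂ) = N := by rw [Int.toNat_of_nonneg h4.le]
  exact_mod_cast this.symm

/-- Every point is at distance at most `2` from a lattice point. -/
lemma covering (p : ℂ) : ∃ μ ∈ lattice, ‖p - μ‖ ≤ 2 := by
  set b : ℝ := 2 / Real.sqrt 3 * p.im with hb
  set a : ℝ := p.re - b / 2 with ha
  refine ⟨⌊a⌋ + ⌊b⌋ * om, ⟨⌊a⌋, ⌊b⌋, rfl⟩, ?_⟩
  have hp : p = a + b * om := by
    apply Complex.ext
    · simp [om_re, ha]; ring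
    · simp [om_im, hb]
      field_simp
  have h1 : p - (⌊a⌋ + ⌊b⌋ * om) = (Int.fract a : ℝ) + (Int.fract b : ℝ) * om := by
    conv_lhs => rw [hp]
    rw [Int.fract, Int.fract]
    push_cast
    ring
  rw [h1]
  have hom : ‖om‖ = 1 := by
    rw [← sq_eq_sq₀ (norm_nonneg _) zero_le_one, ← Complex.normSq_eq_norm_sq, Complex.normSq_apply,
      om_re, om_im]
    nlinarith [sqrt3_sq]
  calc ‖((Int.fract a : ℝ) : ℂ) + (Int.fract b : ℝ) * om‖
      ≤ ‖((Int.fract a : ℝ) : ℂ)‖ + ‖((Int.fract b : ℝ) : ℂ) * om‖ := norm_add_le _ _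
    _ = |Int.fract a| + |Int.fract b| := by
        rw [norm_mul, hom, Complex.norm_real, Complex.norm_real]
        simp
    _ ≤ 2 := by
        rw [abs_of_nonneg (Int.fract_nonneg a), abs_of_nonneg (Int.fract_nonneg b)]
        linarith [Int.fract_lt_one a, Int.fract_lt_one b]

lemma covering' (w : ℂ) (hw : w ≠ 0) (p : ℂ) : ∃ μ ∈ lattice, ‖p - w * μ‖ ≤ 2 * ‖w‖ := by
  obtain ⟨μ, hμ, h⟩ := covering (p / w)
  refine ⟨μ, hμ, ?_⟩
  have : p - w * μ = w * (p / w - μ) := by field_simp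
  rw [this, norm_mul, mul_comm]
  exact mul_le_mul_of_nonneg_right h (norm_nonneg _)

/-- A line whose direction is not parallel to a vector of the lattice comes arbitrarily near to
the lattice. -/
lemma near_of_not_parallel (w u : ℂ) (hu : ‖u‖ = 1)
    (h : ∀ μ ∈ lattice, (conj u * (w * μ)).im = 0 → μ = 0) (p : ℂ) (ε : ℝ) (hε : 0 < ε) :
    ∃ t : ℝ, ∃ μ ∈ lattice, ‖p + t * u - w * μ‖ < ε := by
  set a := (conj u * (w * 1)).im with ha
  set b := (conj u * (w * om)).im with hb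
  have hlin : ∀ m n : ℤ, (conj u * (w * (m + n * om))).im = m * a + n * b := by
    intro m n
    have : conj u * (w * (m + n * om)) = (m : ℂ) * (conj u * (w * 1))
        + (n : ℂ) * (conj u * (w * om)) := by ring
    rw [this, Complex.add_im, ha, hb]
    simp
  have hb0 : b ≠ 0 := by
    intro hb0
    have h1 := h om om_mem hb0
    have h2 := congrArg Complex.re h1
    rw [om_re] at h2
    norm_num at h2
  have hirr : Irrational (a / b) := by
    rintro ⟨q, hq⟩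
    have h1 : (q.den : ℝ) * a - q.num * b = 0 := by
      have h2 : (q : ℝ) * b = a := by rw [hq]; field_simp
      have h3 : (q : ℝ) * q.den = q.num := by exact_mod_cast Rat.mul_den_eq_num q
      rw [← h2]
      linear_combination b * h3
    have h4 := h ((q.den : ℤ) + (-q.num : ℤ) * om) ⟨q.den, -q.num, rfl⟩
      (by rw [hlin]; push_cast; linarith)
    have h5 := (coord_zero _ _ h4).1
    have := q.den_pos
    omega
  have hdense := dense_addSubgroupClosure_pair_iff.mpr hirr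
  obtain ⟨s, hs, hs'⟩ := hdense.exists_dist_lt (conj u * p).im hε
  have hs2 : s ∈ AddSubgroup.closure {a, b} := hs
  rw [AddSubgroup.mem_closure_pair] at hs2
  obtain ⟨m, n, rfl⟩ := hs2
  refine ⟨-(conj u * (p - w * (m + n * om))).re, m + n * om, ⟨m, n, rfl⟩, ?_⟩
  have huu : u * conj u = 1 := by
    rw [Complex.mul_conj, Complex.normSq_eq_norm_sq, hu]; simp
  set A := conj u * (p - w * (m + n * om)) with hA
  have h1 : p + ((-A.re : ℝ) : ℂ) * u - w * (m + n * om) = u * (A - (A.re : ℝ)) := by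
    rw [hA]
    push_cast
    linear_combination (-(p - w * (m + n * om))) * huu
  rw [h1, norm_mul, hu, one_mul]
  have h2 : A - (A.re : ℝ) = (A.im : ℝ) * I := by
    apply Complex.ext <;> simp
  rw [h2, norm_mul, Complex.norm_I, mul_one, Complex.norm_real, Real.norm_eq_abs]
  have h3 : A.im = (conj u * p).im - (m * a + n * b) := by
    rw [hA, mul_sub, Complex.sub_im, hlin]
  rw [h3]
  rw [Real.dist_eq] at hs'
  simpa using hs'

/-- Two rotated lattices without common direction: every segment of length `2T` comes near to one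
of them. -/
lemma dense_two (w1 w2 : ℂ) (h1 : ‖w1‖ = 1) (h2 : ‖w2‖ = 1)
    (hne : ∀ μ1 ∈ lattice, ∀ μ2 ∈ lattice, (conj (w1 * μ1) * (w2 * μ2)).im = 0 →
      μ1 = 0 ∨ μ2 = 0) (ε : ℝ) (hε : 0 < ε) :
    ∃ T : ℝ, 0 < T ∧ ∀ u : ℂ, ‖u‖ = 1 → ∀ p1 p2 : ℂ, ∃ t : ℝ, |t| ≤ T ∧
      ((∃ μ ∈ lattice, ‖p1 + t * u - w1 * μ‖ < ε) ∨
        (∃ μ ∈ lattice, ‖p2 + t * u - w2 * μ‖ < ε)) := by
  have hw1 : w1 ≠ 0 := by
    intro h; rw [h] at h1; simp at h1
  have hw2 : w2 ≠ 0 := by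
    intro h; rw [h] at h2; simp at h2
  -- pointwise
  have point : ∀ u : ℂ, ‖u‖ = 1 → ∀ p1 p2 : ℂ, ∃ t : ℝ,
      ((∃ μ ∈ lattice, ‖p1 + t * u - w1 * μ‖ < ε) ∨
        (∃ μ ∈ lattice, ‖p2 + t * u - w2 * μ‖ < ε)) := by
    intro u hu p1 p2
    by_cases hc1 : ∀ μ ∈ lattice, (conj u * (w1 * μ)).im = 0 → μ = 0
    · obtain ⟨t, μ, hμ, h⟩ := near_of_not_parallel w1 u hu hc1 p1 ε hε
      exact ⟨t, Or.inl ⟨μ, hμ, h⟩⟩
    · by_cases hc2 : ∀ μ ∈ lattice, (conj u * (w2 * μ)).im = 0 → μ = 0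
      · obtain ⟨t, μ, hμ, h⟩ := near_of_not_parallel w2 u hu hc2 p2 ε hε
        exact ⟨t, Or.inr ⟨μ, hμ, h⟩⟩
      · exfalso
        push Not at hc1 hc2
        obtain ⟨μ1, hμ1, hr1, hn1⟩ := hc1
        obtain ⟨μ2, hμ2, hr2, hn2⟩ := hc2
        have huu : u * conj u = 1 := by
          rw [Complex.mul_conj, Complex.normSq_eq_norm_sq, hu]; simp
        have hprod : conj (w1 * μ1) * (w2 * μ2)
            = conj (conj u * (w1 * μ1)) * (conj u * (w2 * μ2)) := by
          rw [map_mul (starRingEnd ℂ) (conj u) (w1 * μ1), Complex.conj_conj]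
          linear_combination (-(conj (w1 * μ1) * (w2 * μ2))) * huu
        have him : (conj (w1 * μ1) * (w2 * μ2)).im = 0 := by
          rw [hprod, Complex.mul_im, Complex.conj_re, Complex.conj_im, hr1, hr2]
          simp
        rcases hne μ1 hμ1 μ2 hμ2 him with h | h
        · exact hn1 h
        · exact hn2 h
  -- the open cover
  let U : ℕ → Set (ℂ × ℂ × ℂ) := fun n =>
    ⋃ t : ℝ, ⋃ _ : |t| < n, ((⋃ μ ∈ lattice, {q | ‖q.2.1 + t * q.1 - w1 * μ‖ < ε}) ∪
      (⋃ μ ∈ lattice, {q | ‖q.2.2 + t * q.1 - w2 * μ‖ < ε}))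
  have hUo : ∀ n, IsOpen (U n) := by
    intro n
    refine isOpen_iUnion fun t => isOpen_iUnion fun _ => IsOpen.union ?_ ?_
    · exact isOpen_biUnion fun μ _ => isOpen_lt (by fun_prop) continuous_const
    · exact isOpen_biUnion fun μ _ => isOpen_lt (by fun_prop) continuous_const
  let K : Set (ℂ × ℂ × ℂ) :=
    Metric.sphere (0 : ℂ) 1 ×ˢ (Metric.closedBall (0 : ℂ) 2 ×ˢ Metric.closedBall (0 : ℂ) 2)
  have hK : IsCompact K :=
    (isCompact_sphere _ _).prod ((isCompact_closedBall _ _).prod (isCompact_closedBall _ _))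
  have hcov : K ⊆ ⋃ n, U n := by
    rintro ⟨u, p1, p2⟩ ⟨hu, _⟩
    have hu' : ‖u‖ = 1 := by simpa using hu
    obtain ⟨t, ht⟩ := point u hu' p1 p2
    obtain ⟨n, hn⟩ := exists_nat_gt |t|
    refine Set.mem_iUnion.mpr ⟨n, Set.mem_iUnion.mpr ⟨t, Set.mem_iUnion.mpr ⟨hn, ?_⟩⟩⟩
    rcases ht with ⟨μ, hμ, h⟩ | ⟨μ, hμ, h⟩
    · exact Or.inl (Set.mem_biUnion hμ h)
    · exact Or.inr (Set.mem_biUnion hμ h)
  have hmono : Monotone U := by
    intro m n hmn q hq
    simp only [U, Set.mem_iUnion] at hq ⊢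
    obtain ⟨t, ht, h⟩ := hq
    exact ⟨t, lt_of_lt_of_le ht (by exact_mod_cast hmn), h⟩
  obtain ⟨N, hN⟩ := hK.elim_directed_cover U hUo hcov hmono.directed_le
  refine ⟨N + 1, by positivity, ?_⟩
  intro u hu p1 p2
  obtain ⟨ν1, hν1, hd1⟩ := covering' w1 hw1 p1
  obtain ⟨ν2, hν2, hd2⟩ := covering' w2 hw2 p2
  rw [h1, mul_one] at hd1
  rw [h2, mul_one] at hd2
  have hmem : (u, p1 - w1 * ν1, p2 - w2 * ν2) ∈ K := by
    refine ⟨by simpa using hu, ?_, ?_⟩
    · simpa using hd1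
    · simpa using hd2
  have h := hN hmem
  simp only [U, Set.mem_iUnion] at h
  obtain ⟨t, ht, h⟩ := h
  refine ⟨t, by linarith, ?_⟩
  rcases h with h | h
  · left
    simp only [Set.mem_iUnion, Set.mem_setOf_eq] at h
    obtain ⟨μ, hμ, h⟩ := h
    refine ⟨μ + ν1, add_mem hμ hν1, ?_⟩
    have : p1 + t * u - w1 * (μ + ν1) = p1 - w1 * ν1 + t * u - w1 * μ := by ring
    rw [this]
    exact h
  · right
    simp only [Set.mem_iUnion, Set.mem_setOf_eq] at h
    obtain ⟨μ, hμ, h⟩ := h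
    refine ⟨μ + ν2, add_mem hμ hν2, ?_⟩
    have : p2 + t * u - w2 * (μ + ν2) = p2 - w2 * ν2 + t * u - w2 * μ := by ring
    rw [this]
    exact h

end Pool.Agent.Run7.h810.DF
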