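import Mathlib

/-!
# Motives over a number field `F`: Artin representations, twisted L-functions, Deligne's relation

`N` runs over the finite Galois extensions of the number field `F`, `M` is a motive over `F` which
is given by the elements `t p n` of its coefficient field, the traces of the `n`-th power of
Frobenius at the prime `p`.
-/

set_option autoImplicit false

namespace Pool.Agent.Run7.h810.DF

open NumberField IsDedekindDomain

/-- A finite Galois extension `N` of the number field `F`. -/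
structure Ext (F : Type) [Field F] [NumberField F] where
  /-- the field -/
  N : Type
  [fN : Field N]
  [nN : NumberField N]
  [aN : Algebra F N]
  [gN : IsGalois F N]

attribute [instance] Ext.fN Ext.nN Ext.aN Ext.gN

variable {F : Type} [Field F] [NumberField F]

/-- The Galois group of `N` over `F`. -/
abbrev Gal (E : Ext F) : Type := E.N ≃ₐ[F] E.N

/-- The restriction homomorphism. -/
noncomputable def rs (E E' : Ext F) [Algebra E.N E'.N] [IsScalarTower F E.N E'.N] :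
    Gal E' →* Gal E :=
  AlgEquiv.restrictNormalHom E.N

/-- The `n`-dimensional complex representations of the Galois group. -/
abbrev Rep (E : Ext F) (n : ℕ) : Type := Gal E →* Matrix (Fin n) (Fin n) ℂ

/-- The character of a representation. -/
noncomputable def chr {E : Ext F} {n : ℕ} (ρ : Rep E n) (g : Gal E) : ℂ := (ρ g).trace

/-- The conjugate `τ(ρ)` of a representation by an automorphism `τ` of `ℂ`. -/
noncomputable def conj (τ : ℂ ≃+* ℂ) {E : Ext F} {n : ℕ} (ρ : Rep E n) : Rep E n :=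
  ((τ : ℂ →+* ℂ).mapMatrix : Matrix (Fin n) (Fin n) ℂ →+* _).toMonoidHom.comp ρ

/-- The pairs `(P, g)`, where `P` is a prime of `N` over the prime `p` of `F`, and `g` induces
`x ↦ x ^ (N(p) ^ n)` modulo `P`. -/
def frobSet (E : Ext F) (p : Ideal (𝓞 F)) (n : ℕ) : Set (Ideal (𝓞 E.N) × Gal E) :=
  {x | x.1.IsPrime ∧ (∀ y ∈ p, algebraMap (𝓞 F) (𝓞 E.N) y ∈ x.1) ∧
    ∀ y z : 𝓞 E.N, (z : E.N) = x.2 (y : E.N) → z - y ^ (Ideal.absNorm p ^ n) ∈ x.1}

/-- `χ(p^n)`: the mean of `χ` over the elements which induce `x ↦ x ^ (N(p) ^ n)` modulo a prime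
over `p`. For `χ` the character of `ρ` this is the trace of the `n`-th power of Frobenius on the
inertia invariants of `ρ`. -/
noncomputable def frobMean {E : Ext F} (χ : Gal E → ℂ) (p : Ideal (𝓞 F)) (n : ℕ) : ℂ :=
  (∑ᶠ x ∈ frobSet E p n, χ x.2) / (frobSet E p n).ncard

/-- The term `t(p^n) χ(p^n) / (n N(p)^(n s))` of `log L(s, M ⊗ χ)`. -/
noncomputable def logTerm (t : Ideal (𝓞 F) → ℕ → ℂ) {E : Ext F} (χ : Gal E → ℂ) (s : ℂ)
    (x : HeightOneSpectrum (𝓞 F) × ℕ+) : ℂ :=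
  t x.1.asIdeal x.2 * frobMean χ x.1.asIdeal x.2 /
    ((x.2 : ℕ) * (Ideal.absNorm x.1.asIdeal : ℂ) ^ (((x.2 : ℕ) : ℂ) * s))

/-- `f` is the L-function `L(s, M ⊗ χ) = exp (∑ t(p^n) χ(p^n) / (n N(p)^(n s)))`, for `Re s > b`,
continued meromorphically to `ℂ`. -/
def IsL (t : Ideal (𝓞 F) → ℕ → ℂ) (b : ℝ) {E : Ext F} (χ : Gal E → ℂ) (f : ℂ → ℂ) : Prop :=
  (∀ z, MeromorphicAt f z) ∧
    ∀ s : ℂ, b < s.re → ∃ l, HasSum (logTerm t χ s) l ∧ f s = Complex.exp l

/-- The value at `m` of a meromorphic function (the leading coefficient, if the function has a zero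
or a pole at `m`). -/
noncomputable def val (f : ℂ → ℂ) (m : ℂ) : ℂ := meromorphicTrailingCoeffAt f m

/-- `Φ` chooses for every embedding `σ` of `F` into `ℂ` an embedding of `N` which extends `σ`. -/
def IsSys {E : Ext F} (Φ : (F →+* ℂ) → (E.N →+* ℂ)) : Prop :=
  ∀ σ, (Φ σ).comp (algebraMap F E.N) = σ

/-- The period of the Artin motive of `ρ` over `F`: the product of the resolvents
`det (∑ φ(g x) ρ(g))` over the embeddings of `F` into `ℂ`. -/
noncomputable def res {E : Ext F} (Φ : (F →+* ℂ) → (E.N →+* ℂ)) (x : E.N) {n : ℕ} (ρ : Rep E n) :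
    ℂ :=
  ∏ σ : F →+* ℂ, (∑ g : Gal E, Φ σ (g x) • ρ g).det

/-- `c` is the complex conjugation of the Galois group which belongs to the embedding `φ`. -/
def IsCC {E : Ext F} (φ : E.N →+* ℂ) (c : Gal E) : Prop := ∀ y, φ (c y) = star (φ y)

/-- `ψ` is a linear character of the subgroup `H` of the Galois group, extended by `0`: a Hecke
character of finite order of the fixed field `K` of `H`. -/
def IsLin {E : Ext F} (H : Subgroup (Gal E)) (ψ : Gal E → ℂ) : Prop :=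
  ψ 1 = 1 ∧ (∀ x ∈ H, ∀ y ∈ H, ψ (x * y) = ψ x * ψ y) ∧ ∀ x ∉ H, ψ x = 0

/-- `ρ` is induced from the linear character `ψ` of the subgroup `H`: its character is
`g ↦ |H|⁻¹ ∑_y ψ(y⁻¹ g y)`. So `L(s, M ⊗ ρ)` is the L-function of the twist by `ψ` of the base
change of `M` to the fixed field `K` of `H`. -/
def IsInd {E : Ext F} (H : Subgroup (Gal E)) (ψ : Gal E → ℂ) {n : ℕ} (ρ : Rep E n) : Prop :=
  IsLin H ψ ∧ ∀ g, chr ρ g = (Nat.card H : ℂ)⁻¹ * ∑ᶠ y : Gal E, ψ (y⁻¹ * g * y)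

/-- `ψ` and `ψ'` agree at the complex conjugations. -/
def Agree {E : Ext F} (ψ ψ' : Gal E → ℂ) : Prop :=
  ∀ (φ : E.N →+* ℂ) (c : Gal E), IsCC φ c → ψ c = ψ' c

/-- `A` is a normal subgroup of prime index of `B`. -/
def NP {G : Type} [Group G] (A B : Subgroup G) : Prop :=
  A ≤ B ∧ (∀ a ∈ A, ∀ b ∈ B, b⁻¹ * a * b ∈ A) ∧ (A.relIndex B).Prime

/-- A class of finite extensions `K` of `F` (the fixed fields of the subgroups `H`) which contains
`F` and which is closed under cyclic extensions of prime degree; it does not depend on the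
surrounding field `N`. -/
structure Adm (𝒢 : (E : Ext F) → Subgroup (Gal E) → Prop) : Prop where
  base : ∀ E : Ext F, 𝒢 E ⊤
  up : ∀ (E E' : Ext F) [Algebra E.N E'.N] [IsScalarTower F E.N E'.N] (H : Subgroup (Gal E)),
    𝒢 E H → 𝒢 E' (H.comap (rs E E'))
  cyc : ∀ (E : Ext F) (A B : Subgroup (Gal E)), 𝒢 E B → NP A B → 𝒢 E A

/-- `L(s, M ⊗ ρ)` and `L(s, τ(M) ⊗ τ(ρ))` have meromorphic continuations to `ℂ`. -/
def Con (τ : ℂ ≃+* ℂ) (t : Ideal (𝓞 F) → ℕ → ℂ) (b : ℝ) {E : Ext F} {n : ℕ} (ρ : Rep E n) : Prop :=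
  (∃ f, IsL t b (chr ρ) f) ∧ ∃ f, IsL (fun p k => τ (t p k)) b (chr (conj τ ρ)) f

/-- **Deligne's relation for `M ⊗ ρ` at `m`**, for an embedding `e` of the coefficient field `C` of
`M` and an automorphism `τ` of `ℂ`. `r` is half the rank of `M`, `d σ` is the multiplicity of the
eigenvalue `-1` of the complex conjugation `ρ(c_σ)` for the real embeddings `σ` of `F`, and `A e`,
`B e σ` are the periods of `M`: for `M` with the periods `c⁺_σ`, `c⁻_σ` for the real places and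
`c_w` for the complex places `w`, `A` is `∏ c⁺_σ ∏ c_w` and `B σ` is `c⁻_σ / c⁺_σ`, so that
`res(ρ) ^ r A ^ n ∏ B σ ^ d σ` is the period of `M ⊗ ρ`. -/
def Del {C : Type} [Field C] (r : ℕ) (m : ℂ) (t : Ideal (𝓞 F) → ℕ → C) (b : ℝ)
    (A : (C →+* ℂ) → ℂ) (B : (C →+* ℂ) → (F →+* ℂ) → ℂ) (e : C →+* ℂ) (τ : ℂ ≃+* ℂ) {E : Ext F}
    {n : ℕ} (ρ : Rep E n) : Prop :=
  ∀ (Φ : (F →+* ℂ) → (E.N →+* ℂ)) (x : E.N) (d : (F →+* ℂ) → ℕ) (f f' : ℂ → ℂ), IsSys Φ →
    res Φ x ρ ≠ 0 → (∀ σ c, IsCC (Φ σ) c → chr ρ c = n - 2 * d σ) →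
    (∀ σ, (¬ ∃ c : Gal E, IsCC (Φ σ) c) → d σ = 0) →
    IsL (fun p k => e (t p k)) b (chr ρ) f →
    IsL (fun p k => τ (e (t p k))) b (chr (conj τ ρ)) f' →
    τ (val f m / (res Φ x ρ ^ r * A e ^ n * ∏ σ, B e σ ^ d σ)) =
      val f' m / (res Φ x (conj τ ρ) ^ r * A ((τ : ℂ →+* ℂ).comp e) ^ n *
        ∏ σ, B ((τ : ℂ →+* ℂ).comp e) σ ^ d σ)

/-- The relation for the quotient of two L-values: `ρ` and `ρ'` have the same dimension and the same
behaviour at infinity, so that the periods of `M` cancel. -/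
def Rel (τ : ℂ ≃+* ℂ) (r : ℕ) (m : ℂ) (t : Ideal (𝓞 F) → ℕ → ℂ) (b : ℝ) {E : Ext F} {n : ℕ}
    (ρ ρ' : Rep E n) : Prop :=
  ∀ (Φ : (F →+* ℂ) → (E.N →+* ℂ)) (x : E.N) (f₁ f₂ f₁' f₂' : ℂ → ℂ), IsSys Φ →
    res Φ x ρ ≠ 0 → res Φ x ρ' ≠ 0 → IsL t b (chr ρ) f₁ → IsL t b (chr ρ') f₂ →
    IsL (fun p k => τ (t p k)) b (chr (conj τ ρ)) f₁' →
    IsL (fun p k => τ (t p k)) b (chr (conj τ ρ')) f₂' →
    τ (val f₁ m / val f₂ m / (res Φ x ρ / res Φ x ρ') ^ r) =
      val f₁' m / val f₂' m / (res Φ x (conj τ ρ) / res Φ x (conj τ ρ')) ^ r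

/-- **The quotient relations for the extensions `K` of `F` in `𝒢`.** `C` is the coefficient field of
`M`. Here `K` is the fixed field of `H`, the characters `ψ`, `ψ'` of `K` have the same signature, and
`ρ`, `ρ'` are induced from `ψ`, `ψ'`, so that `L(s, M ⊗ ρ)` is `L(s, M_K ⊗ ψ)`, for the base change
`M_K` of `M` to `K`. No periods occur. -/
def Quo {C : Type} [Field C] (r : ℕ) (m : ℂ) (t : Ideal (𝓞 F) → ℕ → C) (b : ℝ)
    (𝒢 : (E : Ext F) → Subgroup (Gal E) → Prop) : Prop :=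
  ∀ (e : C →+* ℂ) (τ : ℂ ≃+* ℂ) (E : Ext F) (H : Subgroup (Gal E)) (ψ ψ' : Gal E → ℂ) (n : ℕ)
    (ρ ρ' : Rep E n), 𝒢 E H → Agree ψ ψ' → IsInd H ψ ρ → IsInd H ψ' ρ' →
      Con τ (fun p k => e (t p k)) b ρ ∧ Con τ (fun p k => e (t p k)) b ρ' ∧
        Rel τ r m (fun p k => e (t p k)) b ρ ρ'

/-- **Deligne's relation for all Artin representations of the extensions `N` of `F` in `𝒩`**, for
some periods `A`, `B σ` of `M`. -/
def Deligne {C : Type} [Field C] (r : ℕ) (m : ℂ) (t : Ideal (𝓞 F) → ℕ → C) (b : ℝ)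
    (𝒩 : Ext F → Prop) : Prop :=
  ∃ (A : (C →+* ℂ) → ℂ) (B : (C →+* ℂ) → (F →+* ℂ) → ℂ), (∀ e, A e ≠ 0) ∧ (∀ e σ, B e σ ≠ 0) ∧
    ∀ (e : C →+* ℂ) (τ : ℂ ≃+* ℂ) (E : Ext F), 𝒩 E → ∀ (n : ℕ) (ρ : Rep E n),
      Con τ (fun p k => e (t p k)) b ρ ∧ Del r m t b A B e τ ρ

end Pool.Agent.Run7.h810.DF
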