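import Mathlib
import Pool.Agent.Run7.h810.DF.Defs
import Pool.Agent.K4H74.ST.Ext

/-!
# Extensions by square roots, composita, sign characters
-/

set_option autoImplicit false
set_option linter.unusedSectionVars false
set_option linter.unusedVariables false

namespace Pool.Agent.Run7.h810.DF

open NumberField NumberField.ComplexEmbedding Polynomial Pool.Agent.K4H74.ST

variable {F : Type} [Field F] [NumberField F]

/-- adjoining square roots -/
theorem exists_sq (E : Ext F) (A : Finset E.N) :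
    ∃ (E' : Ext F) (_ : Algebra E.N E'.N) (_ : IsScalarTower F E.N E'.N),
      ∀ a ∈ A, ∃ w : E'.N, w * w = algebraMap E.N E'.N a := by
  obtain ⟨N, i1, i2, i3, i4, i5, i6, h⟩ := exists_ext F E.N A
  exact ⟨@Ext.mk F _ _ N i1 i2 i3 i6, i4, i5, h⟩

lemma exists_comp_aux (N₁ N₂ : Type) [Field N₁] [NumberField N₁] [Algebra F N₁] [IsGalois F N₁]
    [Field N₂] [NumberField N₂] [Algebra F N₂] [IsGalois F N₂] (q : F[X]) (hq : q.Separable)
    [IsSplittingField F N₂ q] (N' : Type) [Field N'] [Algebra F N'] [Algebra N₁ N']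
    [IsScalarTower F N₁ N'] [CharZero N']
    (hA : IsSplittingField N₁ N' (q.map (algebraMap F N₁))) :
    NumberField N' ∧ IsGalois F N' ∧ ∃ (_ : Algebra N₂ N'), IsScalarTower F N₂ N' := by
  classical
  have hfin1 : FiniteDimensional F N₁ := Module.Finite.of_restrictScalars_finite ℚ F N₁
  have hfin : FiniteDimensional N₁ N' :=
    IsSplittingField.finiteDimensional N' (q.map (algebraMap F N₁))
  have hfinF : FiniteDimensional F N' := FiniteDimensional.trans F N₁ N'
  have hfinQ : FiniteDimensional ℚ N' := by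
    let : Algebra ℚ N' := DivisionRing.toRatAlgebra
    have : IsScalarTower ℚ F N' := inferInstance
    exact FiniteDimensional.trans ℚ F N'
  have hNF : NumberField N' := { to_charZero := inferInstance, to_finiteDimensional := hfinQ }
  obtain ⟨Q, hQs, hQ⟩ := IsGalois.is_separable_splitting_field F N₁
  have hsp : IsSplittingField F N' (Q * q) := IsSplittingField.mul (K := N₁) N' Q q hQs.ne_zero hq.ne_zero
  have hnorm : Normal F N' := Normal.of_isSplittingField (Q * q)
  have hgal : IsGalois F N' := ⟨⟩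
  refine ⟨hNF, hgal, ?_⟩
  have hs : (q.map (algebraMap F N')).Splits := by
    have h := IsSplittingField.splits N' (q.map (algebraMap F N₁))
    rwa [Polynomial.map_map, ← IsScalarTower.algebraMap_eq F N₁ N'] at h
  let f : N₂ →ₐ[F] N' := IsSplittingField.lift N₂ q hs
  let : Algebra N₂ N' := f.toRingHom.toAlgebra
  exact ⟨inferInstance, IsScalarTower.of_algebraMap_eq' (f.comp_algebraMap).symm⟩

/-- composita -/
theorem exists_comp (E₁ E₂ : Ext F) : ∃ (E : Ext F) (_ : Algebra E₁.N E.N)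
    (_ : IsScalarTower F E₁.N E.N) (_ : Algebra E₂.N E.N), IsScalarTower F E₂.N E.N := by
  classical
  have hfin2 : FiniteDimensional F E₂.N := Module.Finite.of_restrictScalars_finite ℚ F E₂.N
  obtain ⟨q, hq, hq'⟩ := IsGalois.is_separable_splitting_field F E₂.N
  let f : E₁.N[X] := q.map (algebraMap F E₁.N)
  let N' := SplittingField f
  have h0 : CharZero N' := charZero_of_injective_algebraMap (algebraMap E₁.N N').injective
  obtain ⟨h1, h2, i, h3⟩ := exists_comp_aux E₁.N E₂.N q hq N' (IsSplittingField.splittingField f)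
  exact ⟨@Ext.mk F _ _ N' _ h1 inferInstance h2, (inferInstance : Algebra E₁.N N'),
    (inferInstance : IsScalarTower F E₁.N N'), i, h3⟩

section

variable {E E' : Ext F} [Algebra E.N E'.N] [IsScalarTower F E.N E'.N]

lemma rs_apply (g : Gal E') (x : E.N) :
    algebraMap E.N E'.N (rs E E' g x) = g (algebraMap E.N E'.N x) :=
  AlgEquiv.restrictNormal_commutes g E.N x

lemma rs_surj (E E' : Ext F) [Algebra E.N E'.N] [IsScalarTower F E.N E'.N] :
    Function.Surjective (rs E E') :=
  AlgEquiv.restrictNormalHom_surjective E'.N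

lemma rs_CC {c : Gal E'} (hc : c ∈ CC F E'.N) : rs E E' c ∈ CC F E.N :=
  CC_res hc

end

lemma isConj_iff {E : Ext F} {φ : E.N →+* ℂ} {c : Gal E} : IsConj φ c ↔ IsCC φ c := by
  constructor
  · intro h y
    exact h.eq y
  · intro h
    ext y
    exact (h y).symm

/-- **Sign characters of subgroups.** -/
theorem exists_sgn (E : Ext F) (H : Subgroup (Gal E)) (Y : Set (Gal E))
    (hY : ∀ y ∈ Y, y ∈ CC F E.N ∧ y ∈ H) (hYc : ∀ y ∈ Y, ∀ h ∈ H, h⁻¹ * y * h ∈ Y) :
    ∃ (E' : Ext F) (_ : Algebra E.N E'.N) (_ : IsScalarTower F E.N E'.N)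
      (χ : (H.comap (rs E E')) →* ℂˣ), Sg χ ∧
      ∀ x : H.comap (rs E E'), (x : Gal E') ∈ CC F E'.N → (χ x = -1 ↔ rs E E' x ∈ Y) := by
  classical
  have hfin1 : FiniteDimensional F E.N := Module.Finite.of_restrictScalars_finite ℚ F E.N
  let K : IntermediateField F E.N := IntermediateField.fixedField H
  have hK : NumberField K := inferInstance
  let S : Set (K →+* ℂ) := {σ | ∃ φ : E.N →+* ℂ, ∃ c ∈ Y, IsConj φ c ∧ σ = φ.comp (algebraMap K E.N)}
  obtain ⟨α, hα⟩ := exists_sign K S
  obtain ⟨E', i1, i2, hE'⟩ := exists_sq E {(α : E.N)}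
  obtain ⟨w, hw⟩ := hE' (α : E.N) (by simp)
  refine ⟨E', i1, i2, ?_⟩
  have hfix : ∀ g ∈ H, ∀ x : K, g (x : E.N) = x := fun g hg x => x.2 ⟨g, hg⟩
  have hfw : ∀ g ∈ H.comap (rs E E'), g (w * w) = w * w := by
    intro g hg
    rw [hw, ← rs_apply, hfix _ hg]
  let χ : (H.comap (rs E E')) →* ℂˣ := MonoidHom.mk' (fun g => sgn w (g : Gal E'))
    (fun a b => sgn_mul (pm_of_sq (hfw a a.2)) (pm_of_sq (hfw b b.2)))
  refine ⟨χ, fun g => sgn_sg w _, ?_⟩
  rintro ⟨c, hcH⟩ ⟨φ', hφ'⟩
  change sgn w c = -1 ↔ rs E E' c ∈ Y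
  let φ : E.N →+* ℂ := φ'.comp (algebraMap E.N E'.N)
  have hφ : IsConj φ (rs E E' c) := isConj_res hφ'
  have hcH' : rs E E' c ∈ H := hcH
  -- the real embedding of `K`
  have hreal : IsReal (φ.comp (algebraMap K E.N)) := by
    ext x
    change star (φ (x : E.N)) = φ (x : E.N)
    rw [← hφ.eq, hfix _ hcH']
  have h2 := hα _ hreal
  have hφw : φ' (w * w) = (φ.comp (algebraMap K E.N)) α := by
    rw [hw]
    rfl
  have h3 : (φ' (w * w)).im = 0 := by
    rw [hφw, ← Complex.conj_eq_iff_im]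
    exact RingHom.congr_fun hreal α
  have hS : φ.comp (algebraMap K E.N) ∈ S ↔ rs E E' c ∈ Y := by
    constructor
    · rintro ⟨φ₁, c₁, hc₁, hφ₁, he⟩
      have : IsGalois K E.N := inferInstance
      obtain ⟨σ, hσ⟩ := ComplexEmbedding.exists_comp_symm_eq_of_comp_eq (k := K) φ φ₁ he
      let h : Gal E := (σ.symm : E.N ≃ₐ[K] E.N).restrictScalars F
      have hh : h ∈ H := by
        have h4 : h ∈ K.fixingSubgroup := by
          rw [IntermediateField.mem_fixingSubgroup_iff]
          intro x hx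
          exact (σ.symm : E.N ≃ₐ[K] E.N).commutes ⟨x, hx⟩
        rw [IntermediateField.fixingSubgroup_fixedField] at h4
        exact h4
      have h5 : IsConj φ₁ (h⁻¹ * rs E E' c * h) := by
        have h6 := hφ.comp h
        have h7 : φ.comp ((h : Gal E) : E.N →+* E.N) = φ₁ := hσ
        rw [h7] at h6
        exact h6
      have h8 : h⁻¹ * rs E E' c * h = c₁ := by
        ext x
        apply φ₁.injective
        exact (h5.eq x).trans (hφ₁.eq x).symm
      have h9 := hYc c₁ hc₁ h⁻¹ (H.inv_mem hh)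
      rw [← h8] at h9
      have h10 : h⁻¹⁻¹ * (h⁻¹ * rs E E' c * h) * h⁻¹ = rs E E' c := by group
      rwa [h10] at h9
    · intro hc
      exact ⟨φ, _, hc, hφ, rfl⟩
  rw [← hS]
  constructor
  · intro h
    by_contra hcon
    have h4 := h2.2 hcon
    rw [← hφw] at h4
    rw [sgn_eq_neg] at h
    exact h (sqrt_pos hφ' h3 h4)
  · intro h
    have h4 := h2.1 h
    rw [← hφw] at h4
    rw [sgn_eq_neg, sqrt_neg hφ' h3 h4]
    intro h5
    have h6 : w = 0 := self_eq_neg.mp h5.symm
    rw [h6] at h4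
    simp at h4

/-- **Sign characters of the embeddings of `F`.** -/
theorem exists_signs_aux (E₀ : Ext F) :
    ∃ (E : Ext F) (s : (F →+* ℂ) → (Gal E →* ℂˣ)), (∀ v, Sg (s v)) ∧
      ∀ (v : F →+* ℂ) (φ : E.N →+* ℂ) (c : Gal E), IsCC φ c →
        (s v c = -1 ↔ φ.comp (algebraMap F E.N) = v) := by
  classical
  choose a ha using fun v : F →+* ℂ => exists_sign F {v}
  obtain ⟨E, i1, i2, hE⟩ := exists_sq E₀ (Finset.univ.image fun v => algebraMap F E₀.N (a v))
  choose w hw using fun v => hE (algebraMap F E₀.N (a v)) (Finset.mem_image_of_mem _ (Finset.mem_univ v))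
  have hw' : ∀ v, w v * w v = algebraMap F E.N (a v) := fun v => by
    rw [hw v, ← IsScalarTower.algebraMap_apply F E₀.N E.N]
  refine ⟨E, fun v => sgnHom (w v) (fun g => by rw [hw', AlgEquiv.commutes]),
    fun v => sgnHom_sg _ _, fun v φ c hc => ?_⟩
  have hφ : IsConj φ c := isConj_iff.mpr hc
  change sgn (w v) c = -1 ↔ _
  have hreal : IsReal (φ.comp (algebraMap F E.N)) := by
    ext x
    change star (φ (algebraMap F E.N x)) = φ (algebraMap F E.N x)
    rw [← hc, AlgEquiv.commutes]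
  have h2 := ha v _ hreal
  have hφw : φ (w v * w v) = (φ.comp (algebraMap F E.N)) (a v) := by
    rw [hw']
    rfl
  have h3 : (φ (w v * w v)).im = 0 := by
    rw [hφw, ← Complex.conj_eq_iff_im]
    exact RingHom.congr_fun hreal (a v)
  constructor
  · intro h
    by_contra hcon
    have h4 := h2.2 hcon
    rw [← hφw] at h4
    rw [sgn_eq_neg] at h
    exact h (sqrt_pos hφ h3 h4)
  · intro h
    have h4 := h2.1 h
    rw [← hφw] at h4
    rw [sgn_eq_neg, sqrt_neg hφ h3 h4]
    intro h5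
    have h6 : w v = 0 := self_eq_neg.mp h5.symm
    rw [h6] at h4
    simp at h4

/-- **Sign characters of the embeddings of `F`.** -/
theorem exists_signs (F : Type) [Field F] [NumberField F] :
    ∃ (E : Ext F) (s : (F →+* ℂ) → (Gal E →* ℂˣ)), (∀ v, Sg (s v)) ∧
      ∀ (v : F →+* ℂ) (φ : E.N →+* ℂ) (c : Gal E), IsCC φ c →
        (s v c = -1 ↔ φ.comp (algebraMap F E.N) = v) :=
  exists_signs_aux ⟨F⟩

/-- two embeddings with the same restriction to `F` differ by an automorphism -/
lemma exists_aut {E : Ext F} (φ φ' : E.N →+* ℂ)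
    (h : φ.comp (algebraMap F E.N) = φ'.comp (algebraMap F E.N)) :
    ∃ h : Gal E, ∀ y, φ (h y) = φ' y := by
  obtain ⟨σ, hσ⟩ := ComplexEmbedding.exists_comp_symm_eq_of_comp_eq (k := F) φ φ' h
  exact ⟨σ.symm, fun y => RingHom.congr_fun hσ y⟩

/-- complex conjugations lift -/
lemma CC_lift {E E' : Ext F} [Algebra E.N E'.N] [IsScalarTower F E.N E'.N] {c : Gal E}
    (hc : c ∈ CC F E.N) : ∃ c' ∈ CC F E'.N, rs E E' c' = c := by
  obtain ⟨φ, hφ⟩ := hc
  let φ' : E'.N →+* ℂ := ComplexEmbedding.lift E'.N φ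
  have h1 : φ'.comp (algebraMap E.N E'.N) = φ := ComplexEmbedding.lift_comp_algebraMap _ _
  obtain ⟨c', hc'⟩ := exists_conj (K := F) (φ := φ') (by
    ext x
    change star (φ' (algebraMap F E'.N x)) = φ' (algebraMap F E'.N x)
    rw [IsScalarTower.algebraMap_apply F E.N E'.N, ← RingHom.comp_apply φ', h1, ← hφ.eq,
      AlgEquiv.commutes])
  refine ⟨c', ⟨φ', hc'⟩, ?_⟩
  have h2 : IsConj φ (rs E E' c') := by
    have h3 := isConj_res (L := E.N) hc'
    rw [h1] at h3
    exact h3
  ext x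
  apply φ.injective
  exact (h2.eq x).trans (hφ.eq x).symm

end Pool.Agent.Run7.h810.DF
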