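import Mathlib
import Pool.Agent.Run7.h810.DF.Fields
import Pool.Agent.Run7.h810.DL.Nilp
import Pool.Agent.K4H74.ST.Chr
import Pool.Agent.K4H74.SC.ArtL
import Pool.Agent.K4H74.SC.Newt

/-!
# Twisted L-functions: additivity and inflation
-/

set_option autoImplicit false
set_option linter.unusedSectionVars false
set_option linter.unusedVariables false

namespace Pool.Agent.Run7.h810.DF

open NumberField NumberField.ComplexEmbedding IsDedekindDomain Pool.Agent.R389 Pool.Agent.K4H74.ST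
  Pool.Agent.W446.AS Pool.Agent.H302R2 Pool.Agent.H302R3 Pool.Agent.H541R3.ART
  Pool.Agent.K4H74
open scoped Topology

variable {F : Type} [Field F] [NumberField F] {E : Ext F}

lemma over_iff {p : HeightOneSpectrum (𝓞 F)} {P : Ideal (𝓞 E.N)}
    (hP : P.IsPrime) : P.LiesOver p.asIdeal ↔
      ∀ y ∈ p.asIdeal, algebraMap (𝓞 F) (𝓞 E.N) y ∈ P := by
  have hmax : p.asIdeal.IsMaximal := p.isMaximal
  constructor
  · intro h y hy
    have h2 := h.over
    rw [h2, Ideal.mem_comap] at hy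
    exact hy
  · intro h
    refine ⟨?_⟩
    refine hmax.eq_of_le (Ideal.IsPrime.ne_top inferInstance) ?_
    exact fun y hy => h y hy

lemma frobSet_eq' (p : HeightOneSpectrum (𝓞 F)) (n : ℕ) :
    frobSet E p.asIdeal n = SC.frobSet F E.N p.asIdeal n := by
  ext x
  constructor
  · rintro ⟨h1, h2, h3⟩
    exact ⟨h1, (over_iff h1).mpr h2, fun y => h3 y _ rfl⟩
  · rintro ⟨h1, h2, h3⟩
    refine ⟨h1, (over_iff h1).mp h2, fun y z hz => ?_⟩
    have h4 : z = x.2 • y := RingOfIntegers.ext hz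
    rw [h4]
    exact h3 y

lemma frobMean_eq' (χ : Gal E → ℂ) (p : HeightOneSpectrum (𝓞 F)) (n : ℕ) :
    frobMean χ p.asIdeal n = SC.frobMean F E.N χ p.asIdeal n := by
  rw [frobMean, SC.frobMean, frobSet_eq']

lemma frobMean_add' (χ χ' : Gal E → ℂ) (p : HeightOneSpectrum (𝓞 F)) (n : ℕ) :
    frobMean (χ + χ') p.asIdeal n = frobMean χ p.asIdeal n + frobMean χ' p.asIdeal n := by
  have := p.isPrime
  rw [frobMean_eq', frobMean_eq', frobMean_eq', SC.frobMean_add _ _ p.ne_bot]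

lemma frobMean_infl' {E' : Ext F} [Algebra E.N E'.N] [IsScalarTower F E.N E'.N] {χ : Gal E → ℂ}
    (hχ : ∀ g x, χ (x * g * x⁻¹) = χ g) (p : HeightOneSpectrum (𝓞 F)) (n : ℕ) :
    frobMean (fun g => χ (rs E E' g)) p.asIdeal n = frobMean χ p.asIdeal n := by
  have := p.isPrime
  rw [frobMean_eq', frobMean_eq']
  exact SC.frobMean_infl (K := F) (L := E.N) (N := E'.N) hχ p.ne_bot n

lemma frobMean_neg' (χ : Gal E → ℂ) (p : HeightOneSpectrum (𝓞 F)) (n : ℕ) :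
    frobMean (-χ) p.asIdeal n = -frobMean χ p.asIdeal n := by
  have h1 := frobMean_add' (-χ) χ p n
  rw [neg_add_cancel] at h1
  have h2 : frobMean (0 : Gal E → ℂ) p.asIdeal n = 0 := by
    rw [frobMean]
    simp
  rw [h2] at h1
  exact eq_neg_of_add_eq_zero_left h1.symm

lemma logTerm_add' (t : Ideal (𝓞 F) → ℕ → ℂ) (χ χ' : Gal E → ℂ) (s : ℂ)
    (x : HeightOneSpectrum (𝓞 F) × ℕ+) :
    logTerm t (χ + χ') s x = logTerm t χ s x + logTerm t χ' s x := by
  rw [logTerm, logTerm, logTerm, frobMean_add' χ χ', mul_add, add_div]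

lemma logTerm_neg' (t : Ideal (𝓞 F) → ℕ → ℂ) (χ : Gal E → ℂ) (s : ℂ)
    (x : HeightOneSpectrum (𝓞 F) × ℕ+) :
    logTerm t (-χ) s x = -logTerm t χ s x := by
  rw [logTerm, logTerm, frobMean_neg' χ, mul_neg, neg_div]

lemma logTerm_infl' {E' : Ext F} [Algebra E.N E'.N] [IsScalarTower F E.N E'.N]
    (t : Ideal (𝓞 F) → ℕ → ℂ) {χ : Gal E → ℂ} (hχ : ∀ g x, χ (x * g * x⁻¹) = χ g)
    (s : ℂ) : logTerm t (fun g => χ (rs E E' g)) s = logTerm t χ s := by
  funext x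
  rw [logTerm, logTerm, frobMean_infl' hχ x.1]

lemma re_ev (b : ℝ) : ∀ᶠ s in 𝓝[≠] (((b + 1 : ℝ)) : ℂ), b < s.re := by
  have h1 : ∀ᶠ s in 𝓝 (((b + 1 : ℝ)) : ℂ), b < s.re := by
    refine (isOpen_lt continuous_const Complex.continuous_re).mem_nhds ?_
    change b < (((b + 1 : ℝ)) : ℂ).re
    rw [Complex.ofReal_re]
    linarith
  exact h1.filter_mono nhdsWithin_le_nhds

/-- identity theorem -/
lemma val_unique {f f' : ℂ → ℂ} (hf : ∀ z, MeromorphicAt f z) (hf' : ∀ z, MeromorphicAt f' z)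
    {b : ℝ} (h : ∀ s : ℂ, b < s.re → f s = f' s) (m : ℂ) : val f m = val f' m := by
  apply meromorphicTrailingCoeffAt_congr_nhdsNE
  have hm : MeromorphicOn (f - f') Set.univ := fun z _ => (hf z).sub (hf' z)
  have h0 : meromorphicOrderAt (f - f') m = ⊤ := by
    by_contra hcon
    refine hm.meromorphicOrderAt_ne_top_of_isPreconnected isPreconnected_univ
      (Set.mem_univ m) (Set.mem_univ ((b + 1 : ℝ) : ℂ)) hcon ?_
    rw [meromorphicOrderAt_eq_top_iff]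
    filter_upwards [re_ev b] with s hs
    rw [Pi.sub_apply, h s hs, sub_self]
  rw [meromorphicOrderAt_eq_top_iff] at h0
  filter_upwards [h0] with s hs
  exact sub_eq_zero.mp hs

lemma val_ne {f : ℂ → ℂ} (hf : ∀ z, MeromorphicAt f z) {b : ℝ}
    (h : ∀ s : ℂ, b < s.re → f s ≠ 0) (m : ℂ) : val f m ≠ 0 := by
  refine (hf m).meromorphicTrailingCoeffAt_ne_zero ?_
  have hm : MeromorphicOn f Set.univ := fun z _ => hf z
  refine hm.meromorphicOrderAt_ne_top_of_isPreconnected isPreconnected_univ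
    (Set.mem_univ ((b + 1 : ℝ) : ℂ)) (Set.mem_univ m) ?_
  intro h1
  rw [meromorphicOrderAt_eq_top_iff] at h1
  obtain ⟨s, hs1, hs2⟩ := (h1.and (re_ev b)).exists
  exact h s hs2 hs1

section

variable {t : Ideal (𝓞 F) → ℕ → ℂ} {b : ℝ} {χ χ' : Gal E → ℂ} {f f' : ℂ → ℂ}

lemma IsL.ne (h : IsL t b χ f) (m : ℂ) : val f m ≠ 0 :=
  val_ne h.1 (fun s hs => by
    obtain ⟨l, -, hl⟩ := h.2 s hs
    rw [hl]
    exact Complex.exp_ne_zero l) m

lemma IsL.unique (h : IsL t b χ f) (h' : IsL t b χ f') (m : ℂ) : val f m = val f' m := by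
  refine val_unique h.1 h'.1 (b := b) (fun s hs => ?_) m
  obtain ⟨l, hl, e⟩ := h.2 s hs
  obtain ⟨l', hl', e'⟩ := h'.2 s hs
  rw [e, e', hl.unique hl']

lemma IsL.add (h : IsL t b χ f) (h' : IsL t b χ' f') : IsL t b (χ + χ') (f * f') := by
  refine ⟨fun z => (h.1 z).mul (h'.1 z), fun s hs => ?_⟩
  obtain ⟨l, hl, e⟩ := h.2 s hs
  obtain ⟨l', hl', e'⟩ := h'.2 s hs
  refine ⟨l + l', ?_, by rw [Pi.mul_apply, e, e', Complex.exp_add]⟩
  refine (hl.add hl').congr_fun ?_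
  intro x
  exact logTerm_add' t χ χ' s x

lemma IsL.neg (h : IsL t b χ f) : IsL t b (-χ) f⁻¹ := by
  refine ⟨fun z => (h.1 z).inv, fun s hs => ?_⟩
  obtain ⟨l, hl, e⟩ := h.2 s hs
  refine ⟨-l, ?_, by rw [Pi.inv_apply, e, Complex.exp_neg]⟩
  refine hl.neg.congr_fun ?_
  intro x
  exact logTerm_neg' t χ s x

lemma IsL.val_add (h : IsL t b χ f) (h' : IsL t b χ' f') (m : ℂ) :
    val (f * f') m = val f m * val f' m :=
  (h.1 m).meromorphicTrailingCoeffAt_mul (h'.1 m)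

lemma IsL.val_neg (h : IsL t b χ f) (m : ℂ) : val f⁻¹ m = (val f m)⁻¹ :=
  meromorphicTrailingCoeffAt_inv

lemma IsL.zero (t : Ideal (𝓞 F) → ℕ → ℂ) (b : ℝ) : IsL t b (0 : Gal E → ℂ) 1 := by
  refine ⟨fun z => MeromorphicAt.const 1 z, fun s _ => ⟨0, ?_, by rw [Complex.exp_zero]; rfl⟩⟩
  have h : logTerm t (0 : Gal E → ℂ) s = fun _ => 0 := by
    funext x
    rw [logTerm, frobMean]
    simp
  rw [h]
  exact hasSum_zero

lemma IsL.infl {E' : Ext F} [Algebra E.N E'.N] [IsScalarTower F E.N E'.N]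
    (hχ : ∀ g x, χ (x * g * x⁻¹) = χ g) (h : IsL t b χ f) :
    IsL t b (fun g => χ (rs E E' g)) f := by
  refine ⟨h.1, fun s hs => ?_⟩
  rw [logTerm_infl' t hχ s]
  exact h.2 s hs

end

end Pool.Agent.Run7.h810.DF
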