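import Mathlib
import Pool.Agent.Run7.h810.DF.LFun
import Pool.Agent.Run7.h810.DL.Iff

/-!
# Resolvents and determinants
-/

set_option autoImplicit false
set_option linter.unusedSectionVars false
set_option linter.unusedVariables false

namespace Pool.Agent.Run7.h810.DF

open NumberField NumberField.ComplexEmbedding Pool.Agent.R389 Pool.Agent.K4H74.ST
  Pool.Agent.W446.AS Pool.Agent.H302R2 Pool.Agent.H302R3 Pool.Agent.H541R3.ART
  Pool.Agent.K4H74

variable {F : Type} [Field F] [NumberField F] {E : Ext F}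

lemma chr_isChar {n : ℕ} (ρ : Rep E n) : IsChar (chr ρ) := by
  let ρ' : Representation ℂ (Gal E) (Fin n → ℂ) :=
    { toFun := fun g => Matrix.toLin' (ρ g)
      map_one' := by rw [map_one, Matrix.toLin'_one]; rfl
      map_mul' := fun a b => by rw [map_mul, Matrix.toLin'_mul]; rfl }
  refine ⟨Fin n → ℂ, inferInstance, inferInstance, inferInstance, ρ', funext fun g => ?_⟩
  exact (Matrix.trace_toLin'_eq _).symm

lemma isChar_chr {χ : Gal E → ℂ} (h : IsChar χ) : ∃ (n : ℕ) (ρ : Rep E n), chr ρ = χ := by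
  obtain ⟨V, _, _, _, ρ, rfl⟩ := h
  let b := Module.finBasis ℂ V
  refine ⟨_, { toFun := fun g => LinearMap.toMatrix b b (ρ g)
               map_one' := by rw [map_one]; exact LinearMap.toMatrix_one b
               map_mul' := fun x y => by rw [map_mul]; exact LinearMap.toMatrix_mul b _ _ },
    funext fun g => ?_⟩
  exact (LinearMap.trace_eq_matrix_trace ℂ b _).symm

lemma conj_apply (τ : ℂ ≃+* ℂ) {n : ℕ} (ρ : Rep E n) (g : Gal E) :
    conj τ ρ g = (ρ g).map τ := rfl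

lemma chr_conj (τ : ℂ ≃+* ℂ) {n : ℕ} (ρ : Rep E n) : chr (conj τ ρ) = fun g => τ (chr ρ g) := by
  funext g
  rw [chr, conj_apply, chr, Matrix.trace, Matrix.trace, map_sum]
  rfl

lemma chr_one {n : ℕ} (ρ : Rep E n) : chr ρ 1 = n := by
  rw [chr, map_one, Matrix.trace_one, Fintype.card_fin]

lemma chr_class {n : ℕ} (ρ : Rep E n) (g x : Gal E) : chr ρ (x * g * x⁻¹) = chr ρ g := by
  rw [chr, chr, map_mul, map_mul, Matrix.trace_mul_cycle, ← map_mul, inv_mul_cancel, map_one,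
    one_mul]

lemma exists_sys (E : Ext F) : ∃ Φ : (F →+* ℂ) → (E.N →+* ℂ), IsSys Φ :=
  ⟨fun σ => ComplexEmbedding.lift E.N σ, fun _ => ComplexEmbedding.lift_comp_algebraMap _ _⟩

/-- `g` describes the action of `τ` on the extensions `Φ` of the embeddings of `F` -/
def IsAct (τ : ℂ ≃+* ℂ) (Φ : (F →+* ℂ) → (E.N →+* ℂ)) (g : (F →+* ℂ) → Gal E) : Prop :=
  ∀ σ y, Φ ((τ : ℂ →+* ℂ).comp σ) (g σ y) = τ (Φ σ y)

lemma exists_act (τ : ℂ ≃+* ℂ) {Φ : (F →+* ℂ) → (E.N →+* ℂ)} (hΦ : IsSys Φ) :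
    ∃ g : (F →+* ℂ) → Gal E, IsAct τ Φ g := by
  have h : ∀ σ : F →+* ℂ, ∃ g : Gal E, ∀ y, Φ ((τ : ℂ →+* ℂ).comp σ) (g y) = τ (Φ σ y) := by
    intro σ
    obtain ⟨g, hg⟩ := exists_aut (Φ ((τ : ℂ →+* ℂ).comp σ)) ((τ : ℂ →+* ℂ).comp (Φ σ)) (by
      rw [hΦ, RingHom.comp_assoc, hΦ])
    exact ⟨g, hg⟩
  choose g hg using h
  exact ⟨g, hg⟩

/-- the action of `τ` on the embeddings of `F` -/
def tE (F : Type) [Field F] (τ : ℂ ≃+* ℂ) : (F →+* ℂ) ≃ (F →+* ℂ) where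
  toFun σ := (τ : ℂ →+* ℂ).comp σ
  invFun σ := (τ.symm : ℂ →+* ℂ).comp σ
  left_inv σ := by ext x; simp
  right_inv σ := by ext x; simp

/-- the product of the determinants -/
noncomputable def dt (τ : ℂ ≃+* ℂ) (g : (F →+* ℂ) → Gal E) {n : ℕ} (ρ : Rep E n) : ℂ :=
  ∏ σ, (conj τ ρ (g σ)).det

lemma det_conj_ne (τ : ℂ ≃+* ℂ) (g : Gal E) {n : ℕ} (ρ : Rep E n) : (conj τ ρ g).det ≠ 0 := by
  intro h
  have h1 : conj τ ρ g * conj τ ρ g⁻¹ = 1 := by rw [← map_mul, mul_inv_cancel, map_one]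
  have h2 := congrArg Matrix.det h1
  rw [Matrix.det_mul, h, zero_mul, Matrix.det_one] at h2
  exact zero_ne_one h2

lemma dt_ne (τ : ℂ ≃+* ℂ) (g : (F →+* ℂ) → Gal E) {n : ℕ} (ρ : Rep E n) : dt τ g ρ ≠ 0 :=
  Finset.prod_ne_zero_iff.mpr fun _ _ => det_conj_ne τ _ ρ

/-- the determinant does not depend on the system of embeddings -/
lemma dt_indep (τ : ℂ ≃+* ℂ) {Φ Φ' : (F →+* ℂ) → (E.N →+* ℂ)} {g g' : (F →+* ℂ) → Gal E}
    (hΦ : IsSys Φ) (hg : IsAct τ Φ g) (hΦ' : IsSys Φ') (hg' : IsAct τ Φ' g') {n : ℕ}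
    (ρ : Rep E n) : dt τ g' ρ = dt τ g ρ := by
  choose h hh using fun σ : F →+* ℂ => exists_aut (Φ σ) (Φ' σ) (by rw [hΦ, hΦ'])
  have h1 : ∀ σ, h ((τ : ℂ →+* ℂ).comp σ) * g' σ = g σ * h σ := by
    intro σ
    ext y
    apply (Φ ((τ : ℂ →+* ℂ).comp σ)).injective
    change Φ ((τ : ℂ →+* ℂ).comp σ) (h ((τ : ℂ →+* ℂ).comp σ) (g' σ y))
      = Φ ((τ : ℂ →+* ℂ).comp σ) (g σ (h σ y))
    rw [hh, hg', hg, hh]
  have h2 : ∏ σ, (conj τ ρ (h ((τ : ℂ →+* ℂ).comp σ))).det = ∏ σ, (conj τ ρ (h σ)).det :=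
    Equiv.prod_comp (tE F τ) (fun σ => (conj τ ρ (h σ)).det)
  have h3 : (∏ σ, (conj τ ρ (h ((τ : ℂ →+* ℂ).comp σ))).det) * dt τ g' ρ
      = dt τ g ρ * ∏ σ, (conj τ ρ (h σ)).det := by
    rw [dt, dt, ← Finset.prod_mul_distrib, ← Finset.prod_mul_distrib]
    refine Finset.prod_congr rfl fun σ _ => ?_
    rw [← Matrix.det_mul, ← Matrix.det_mul, ← map_mul, ← map_mul, h1]
  rw [h2, mul_comm] at h3
  exact mul_right_cancel₀ (Finset.prod_ne_zero_iff.mpr fun σ _ => det_conj_ne τ _ ρ) h3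

/-- the determinant depends on the character only -/
lemma dt_unique (τ : ℂ ≃+* ℂ) {Φ Φ' : (F →+* ℂ) → (E.N →+* ℂ)} {g g' : (F →+* ℂ) → Gal E}
    (hΦ : IsSys Φ) (hg : IsAct τ Φ g) (hΦ' : IsSys Φ') (hg' : IsAct τ Φ' g') {n n' : ℕ}
    (ρ : Rep E n) (ρ' : Rep E n') (h : chr ρ = chr ρ') : dt τ g ρ = dt τ g' ρ' := by
  rw [dt_indep τ hΦ hg hΦ' hg' ρ', dt, dt]
  refine Finset.prod_congr rfl fun σ _ => ?_
  apply DL.mat_det
  intro k
  rw [← map_pow, ← map_pow]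
  change chr (conj τ ρ) (g σ ^ k) = chr (conj τ ρ') (g σ ^ k)
  rw [chr_conj, chr_conj, h]

/-- `τ` and the resolvents -/
lemma res_conj (τ : ℂ ≃+* ℂ) {Φ : (F →+* ℂ) → (E.N →+* ℂ)} {g : (F →+* ℂ) → Gal E}
    (hg : IsAct τ Φ g) (x : E.N) {n : ℕ} (ρ : Rep E n) :
    res Φ x (conj τ ρ) = dt τ g ρ * τ (res Φ x ρ) := by
  classical
  have h0 : res Φ x (conj τ ρ) = ∏ σ : F →+* ℂ,
      (∑ h : Gal E, Φ ((τ : ℂ →+* ℂ).comp σ) (h x) • conj τ ρ h).det :=
    (Equiv.prod_comp (tE F τ) (fun σ => (∑ h : Gal E, Φ σ (h x) • conj τ ρ h).det)).symm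
  rw [h0, res, map_prod, dt, ← Finset.prod_mul_distrib]
  refine Finset.prod_congr rfl fun σ _ => ?_
  have h1 : τ ((∑ h : Gal E, Φ σ (h x) • ρ h).det)
      = (∑ h : Gal E, Φ ((τ : ℂ →+* ℂ).comp σ) ((g σ * h) x) • conj τ ρ h).det := by
    have h2 := RingHom.map_det (τ : ℂ →+* ℂ) (∑ h : Gal E, Φ σ (h x) • ρ h)
    have h3 : τ (∑ h : Gal E, Φ σ (h x) • ρ h).det
        = ((τ : ℂ →+* ℂ).mapMatrix (∑ h : Gal E, Φ σ (h x) • ρ h)).det := h2
    rw [h3]
    congr 1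
    rw [map_sum]
    refine Finset.sum_congr rfl fun h _ => ?_
    ext i j
    change τ (Φ σ (h x) * ρ h i j)
      = Φ ((τ : ℂ →+* ℂ).comp σ) ((g σ * h) x) * τ (ρ h i j)
    rw [map_mul]
    congr 1
    exact (hg σ _).symm
  rw [h1, ← Matrix.det_mul]
  congr 1
  rw [Finset.mul_sum, ← Equiv.sum_comp (Equiv.mulLeft (g σ))
    (fun h => Φ ((τ : ℂ →+* ℂ).comp σ) (h x) • conj τ ρ h)]
  refine Finset.sum_congr rfl fun h _ => ?_
  change Φ ((τ : ℂ →+* ℂ).comp σ) ((g σ * h) x) • conj τ ρ (g σ * h)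
    = conj τ ρ (g σ) * (Φ ((τ : ℂ →+* ℂ).comp σ) ((g σ * h) x) • conj τ ρ h)
  rw [Matrix.mul_smul, map_mul]

/-- resolvents of a normal basis do not vanish -/
lemma exists_res' (E : Ext F) : ∃ x : E.N, ∀ (φ : E.N →+* ℂ) (n : ℕ) (ρ : Rep E n),
    (∑ g : Gal E, φ (g x) • ρ g).det ≠ 0 := by
  classical
  have hfin1 : FiniteDimensional F E.N := Module.Finite.of_restrictScalars_finite ℚ F E.N
  let B := IsGalois.normalBasis F E.N
  let x : E.N := B 1
  refine ⟨x, fun φ n ρ => ?_⟩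
  let M : Matrix (Gal E) (Gal E) ℂ := fun k h => φ (k (h⁻¹ x))
  have hM : M.det ≠ 0 := by
    intro h0
    obtain ⟨v, hv, hv0⟩ := Matrix.exists_vecMul_eq_zero_iff.mpr h0
    apply hv
    have h1 : ∀ y : E.N, ∑ k : Gal E, v k * φ (k y) = 0 := by
      have h2 : ∀ h : Gal E, ∑ k : Gal E, v k * φ (k (h x)) = 0 := by
        intro h
        have h3 := congrFun hv0 h⁻¹
        rw [Matrix.vecMul, Pi.zero_apply] at h3
        simp only [dotProduct, M, inv_inv] at h3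
        exact h3
      intro y
      have h4 := B.sum_repr y
      rw [← h4]
      have h5 : ∀ k : Gal E, v k * φ (k (∑ h, B.repr y h • B h))
          = ∑ h, φ (algebraMap F E.N (B.repr y h)) * (v k * φ (k (h x))) := by
        intro k
        rw [map_sum, map_sum, Finset.mul_sum]
        refine Finset.sum_congr rfl fun h _ => ?_
        rw [IsGalois.normalBasis_apply, Algebra.smul_def, map_mul, map_mul, AlgEquiv.commutes]
        ring
      rw [Finset.sum_congr rfl (fun k _ => h5 k), Finset.sum_comm]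
      refine Finset.sum_eq_zero fun h _ => ?_
      rw [← Finset.mul_sum, h2, mul_zero]
    -- independence of characters
    let f : Gal E → (E.N →* ℂ) := fun k => ((φ.comp (k : E.N →+* E.N)) : E.N →+* ℂ).toMonoidHom
    have hf : Function.Injective f := by
      intro k k' h
      ext y
      apply φ.injective
      exact DFunLike.congr_fun h y
    have h6 := (linearIndependent_monoidHom E.N ℂ).comp f hf
    rw [Fintype.linearIndependent_iff] at h6
    funext k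
    refine h6 v ?_ k
    funext y
    rw [Finset.sum_apply]
    exact h1 y
  have hMu : IsUnit M.det := isUnit_iff_ne_zero.mpr hM
  let v : Gal E → ℂ := M⁻¹.mulVec (Pi.single 1 1)
  have hv : M.mulVec v = Pi.single 1 1 := by
    rw [Matrix.mulVec_mulVec, Matrix.mul_nonsing_inv _ hMu, Matrix.one_mulVec]
  have h1 : (∑ g : Gal E, φ (g x) • ρ g) * (∑ h : Gal E, v h • ρ h) = 1 := by
    rw [Finset.sum_mul_sum]
    have h2 : ∀ g : Gal E, ∑ h : Gal E, (φ (g x) • ρ g) * (v h • ρ h)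
        = ∑ k : Gal E, (φ (g x) * v (g⁻¹ * k)) • ρ k := by
      intro g
      rw [← Equiv.sum_comp (Equiv.mulLeft g) (fun k => (φ (g x) * v (g⁻¹ * k)) • ρ k)]
      refine Finset.sum_congr rfl fun h _ => ?_
      change _ = (φ (g x) * v (g⁻¹ * (g * h))) • ρ (g * h)
      rw [inv_mul_cancel_left, Matrix.smul_mul, Matrix.mul_smul, smul_smul, map_mul]
    rw [Finset.sum_congr rfl (fun g _ => h2 g), Finset.sum_comm]
    have h3 : ∀ k : Gal E, ∑ g : Gal E, (φ (g x) * v (g⁻¹ * k)) • ρ k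
        = ((Pi.single 1 1 : Gal E → ℂ) k) • ρ k := by
      intro k
      rw [← Finset.sum_smul]
      congr 1
      rw [← hv, Matrix.mulVec, dotProduct]
      rw [← Equiv.sum_comp ((Equiv.inv (Gal E)).trans (Equiv.mulLeft k))
        (fun g => φ (g x) * v (g⁻¹ * k))]
      refine Finset.sum_congr rfl fun h _ => ?_
      change φ ((k * h⁻¹) x) * v ((k * h⁻¹)⁻¹ * k) = φ (k (h⁻¹ x)) * v h
      rw [mul_inv_rev, inv_inv, inv_mul_cancel_right]
      rfl
    rw [Finset.sum_congr rfl (fun k _ => h3 k), Finset.sum_eq_single 1]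
    · rw [Pi.single_eq_same, one_smul, map_one]
    · intro k _ hk
      rw [Pi.single_eq_of_ne hk, zero_smul]
    · intro h
      exact absurd (Finset.mem_univ _) h
  intro h0
  have h2 := congrArg Matrix.det h1
  rw [Matrix.det_mul] at h2
  rw [h0, zero_mul, Matrix.det_one] at h2
  exact zero_ne_one h2

/-- **resolvents of a normal basis do not vanish** -/
lemma exists_res (E : Ext F) : ∃ x : E.N, ∀ (Φ : (F →+* ℂ) → (E.N →+* ℂ)) (n : ℕ) (ρ : Rep E n),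
    res Φ x ρ ≠ 0 := by
  obtain ⟨x, hx⟩ := exists_res' E
  exact ⟨x, fun Φ n ρ => Finset.prod_ne_zero_iff.mpr fun σ _ => hx (Φ σ) n ρ⟩

end Pool.Agent.Run7.h810.DF
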