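import Mathlib
import Pool.Agent.Run7.h810.DF.Res

/-!
# The invariant of virtual characters which is given by L-values and determinants
-/

set_option autoImplicit false
set_option linter.unusedSectionVars false
set_option linter.unusedVariables false

namespace Pool.Agent.Run7.h810.DF

open NumberField NumberField.ComplexEmbedding Pool.Agent.R389 Pool.Agent.K4H74.ST
  Pool.Agent.W446.AS Pool.Agent.H302R2 Pool.Agent.H302R3 Pool.Agent.H541R3.ART
  Pool.Agent.K4H74
open Pool.Agent.Run7.h810.DL (isChar_comp virt_sub ind_one' ind_van LL LL_tw LL_virt virt_tw Cov Tw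
  MS Sn allSn ind_tower lc_virt lc_conj)

variable {F : Type} [Field F] [NumberField F]

/-- the data -/
structure Dat (F : Type) [Field F] [NumberField F] where
  τ : ℂ ≃+* ℂ
  r : ℕ
  m : ℂ
  t : Ideal (𝓞 F) → ℕ → ℂ
  t' : Ideal (𝓞 F) → ℕ → ℂ
  b : ℝ

section det

variable {E : Ext F}

/-- determinants of virtual characters -/
def DV (τ : ℂ ≃+* ℂ) (g : (F →+* ℂ) → Gal E) (f : Gal E → ℂ) (d : ℂ) : Prop :=
  ∃ (n n' : ℕ) (ρ : Rep E n) (ρ' : Rep E n'), f = chr ρ - chr ρ' ∧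
    d = dt τ g ρ / dt τ g ρ'

lemma exists_sum {n n' : ℕ} (ρ : Rep E n) (ρ' : Rep E n') :
    ∃ (k : ℕ) (σ : Rep E k), chr σ = chr ρ + chr ρ' :=
  isChar_chr ((chr_isChar ρ).add (chr_isChar ρ'))

lemma det_sum (τ : ℂ ≃+* ℂ) {n n' k : ℕ} {ρ : Rep E n} {ρ' : Rep E n'} {σ : Rep E k}
    (h : chr σ = chr ρ + chr ρ') (g : (F →+* ℂ) → Gal E) :
    dt τ g σ = dt τ g ρ * dt τ g ρ' := by
  rw [dt, dt, dt, ← Finset.prod_mul_distrib]
  refine Finset.prod_congr rfl fun s _ => ?_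
  apply DL.mat_det_add
  intro i
  rw [← map_pow, ← map_pow, ← map_pow]
  change chr (conj τ σ) (g s ^ i) = chr (conj τ ρ) (g s ^ i) + chr (conj τ ρ') (g s ^ i)
  rw [chr_conj, chr_conj, chr_conj, h]
  exact map_add τ _ _

variable {τ : ℂ ≃+* ℂ} {Φ Φ' : (F →+* ℂ) → (E.N →+* ℂ)} {g g' : (F →+* ℂ) → Gal E}
  {f f' : Gal E → ℂ} {d d' : ℂ}

lemma DV.change (hΦ : IsSys Φ) (hg : IsAct τ Φ g) (hΦ' : IsSys Φ') (hg' : IsAct τ Φ' g')
    (h : DV τ g f d) : DV τ g' f d := by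
  obtain ⟨n, n', ρ, ρ', rfl, rfl⟩ := h
  refine ⟨n, n', ρ, ρ', rfl, ?_⟩
  rw [dt_unique τ hΦ hg hΦ' hg' ρ ρ rfl, dt_unique τ hΦ hg hΦ' hg' ρ' ρ' rfl]

lemma DV.unique' (h : DV τ g f d) (h' : DV τ g f d') :
    d = d' := by
  obtain ⟨n, k, ρ, σ, rfl, rfl⟩ := h
  obtain ⟨n', k', ρ', σ', h1, rfl⟩ := h'
  have h2 : chr ρ + chr σ' = chr ρ' + chr σ := sub_eq_sub_iff_add_eq_add.mp h1
  obtain ⟨l, θ, hθ⟩ := exists_sum ρ σ'
  have h3 := det_sum τ hθ g
  have h4 := det_sum τ (hθ.trans h2) g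
  rw [div_eq_div_iff (dt_ne τ g σ) (dt_ne τ g σ'), ← h3, h4]

lemma DV.unique (hΦ : IsSys Φ) (hg : IsAct τ Φ g) (hΦ' : IsSys Φ') (hg' : IsAct τ Φ' g')
    (h : DV τ g f d) (h' : DV τ g' f d') : d = d' :=
  (h.change hΦ hg hΦ' hg').unique' h'

lemma DV.add (h : DV τ g f d) (h' : DV τ g f' d') : DV τ g (f + f') (d * d') := by
  obtain ⟨n, k, ρ, σ, rfl, rfl⟩ := h
  obtain ⟨n', k', ρ', σ', rfl, rfl⟩ := h'
  obtain ⟨l, θ, hθ⟩ := exists_sum ρ ρ'
  obtain ⟨l', θ', hθ'⟩ := exists_sum σ σ'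
  refine ⟨l, l', θ, θ', ?_, ?_⟩
  · rw [hθ, hθ']; abel
  · rw [det_sum τ hθ g, det_sum τ hθ' g, div_mul_div_comm]

lemma DV.neg (h : DV τ g f d) : DV τ g (-f) d⁻¹ := by
  obtain ⟨n, k, ρ, σ, rfl, rfl⟩ := h
  exact ⟨k, n, σ, ρ, by abel, by rw [inv_div]⟩

lemma DV.ne (h : DV τ g f d) : d ≠ 0 := by
  obtain ⟨n, k, ρ, σ, rfl, rfl⟩ := h
  exact div_ne_zero (dt_ne τ g ρ) (dt_ne τ g σ)

lemma DV.virt (h : DV τ g f d) : Virt f := by
  obtain ⟨n, k, ρ, σ, rfl, rfl⟩ := h
  exact sub_mem (S := AddSubgroup (Gal E → ℂ)) (chr_isChar ρ).virt (chr_isChar σ).virt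

lemma DV.exist (hf : Virt f) (g : (F →+* ℂ) → Gal E) : ∃ d, DV τ g f d := by
  obtain ⟨a, b, ha, hb, rfl⟩ := virt_sub hf
  obtain ⟨n, ρ, rfl⟩ := isChar_chr ha
  obtain ⟨k, σ, rfl⟩ := isChar_chr hb
  exact ⟨_, n, k, ρ, σ, rfl, rfl⟩

lemma DV.infl {E' : Ext F} [Algebra E.N E'.N] [IsScalarTower F E.N E'.N]
    {g : (F →+* ℂ) → Gal E'} (h : DV τ (fun s => rs E E' (g s)) f d) :
    DV τ g (fun x => f (rs E E' x)) d := by
  obtain ⟨n, k, ρ, σ, rfl, rfl⟩ := h
  exact ⟨n, k, ρ.comp (rs E E'), σ.comp (rs E E'), rfl, rfl⟩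

lemma rs_sys {E' : Ext F} [Algebra E.N E'.N] [IsScalarTower F E.N E'.N]
    {Φ' : (F →+* ℂ) → (E'.N →+* ℂ)} (h : IsSys Φ') :
    IsSys (E := E) fun s => (Φ' s).comp (algebraMap E.N E'.N) := by
  intro σ
  rw [RingHom.comp_assoc, ← IsScalarTower.algebraMap_eq]
  exact h σ

lemma rs_act {E' : Ext F} [Algebra E.N E'.N] [IsScalarTower F E.N E'.N]
    {Φ' : (F →+* ℂ) → (E'.N →+* ℂ)} {g' : (F →+* ℂ) → Gal E'} (h : IsAct τ Φ' g') :
    IsAct (E := E) τ (fun s => (Φ' s).comp (algebraMap E.N E'.N)) (fun s => rs E E' (g' s)) := by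
  intro σ y
  change Φ' _ (algebraMap E.N E'.N (rs E E' (g' σ) y)) = τ (Φ' σ (algebraMap E.N E'.N y))
  rw [rs_apply, h]

end det

section vv

variable (D : Dat F) {E : Ext F}

/-- values of virtual characters -/
def VV (u : Gal E → ℂ) (v : ℂ) : Prop :=
  ∃ (Φ : (F →+* ℂ) → (E.N →+* ℂ)) (g : (F →+* ℂ) → Gal E) (d : ℂ) (f f' : ℂ → ℂ), IsSys Φ ∧
    IsAct D.τ Φ g ∧ DV D.τ g u d ∧ IsL D.t D.b u f ∧ IsL D.t' D.b (fun x => D.τ (u x)) f' ∧
      v = D.τ (val f D.m) * d ^ D.r / val f' D.m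

variable {D} {u u' : Gal E → ℂ} {v v' : ℂ}

lemma VV.unique (h : VV D u v) (h' : VV D u v') : v = v' := by
  obtain ⟨Φ, g, d, f, f', hΦ, hg, hd, hf, hf', rfl⟩ := h
  obtain ⟨Φ₁, g₁, d₁, f₁, f₁', hΦ₁, hg₁, hd₁, hf₁, hf₁', rfl⟩ := h'
  rw [hf.unique hf₁, hf'.unique hf₁', hd.unique hΦ hg hΦ₁ hg₁ hd₁]

lemma VV.add (h : VV D u v) (h' : VV D u' v') : VV D (u + u') (v * v') := by
  obtain ⟨Φ, g, d, f, f', hΦ, hg, hd, hf, hf', rfl⟩ := h
  obtain ⟨Φ₁, g₁, d₁, f₁, f₁', hΦ₁, hg₁, hd₁, hf₁, hf₁', rfl⟩ := h'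
  refine ⟨Φ, g, d * d₁, f * f₁, f' * f₁', hΦ, hg, hd.add (hd₁.change hΦ₁ hg₁ hΦ hg),
    hf.add hf₁, ?_, ?_⟩
  · have h1 := hf'.add hf₁'
    have h2 : (fun x => D.τ ((u + u') x)) = (fun x => D.τ (u x)) + fun x => D.τ (u' x) := by
      funext x
      exact map_add D.τ _ _
    rw [h2]
    exact h1
  · rw [hf.val_add hf₁, hf'.val_add hf₁', map_mul, mul_pow, div_mul_div_comm]
    congr 1
    ring

lemma VV.neg (h : VV D u v) : VV D (-u) v⁻¹ := by
  obtain ⟨Φ, g, d, f, f', hΦ, hg, hd, hf, hf', rfl⟩ := h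
  refine ⟨Φ, g, d⁻¹, f⁻¹, f'⁻¹, hΦ, hg, hd.neg, hf.neg, ?_, ?_⟩
  · have h1 := hf'.neg
    have h2 : (fun x => D.τ ((-u) x)) = -fun x => D.τ (u x) := by
      funext x
      exact map_neg D.τ _
    rw [h2]
    exact h1
  · rw [hf.val_neg, hf'.val_neg, map_inv₀, inv_pow, inv_div, ← mul_inv, div_eq_mul_inv,
      div_eq_mul_inv, inv_inv, mul_comm]

lemma VV.ne (h : VV D u v) : v ≠ 0 := by
  obtain ⟨Φ, g, d, f, f', hΦ, hg, hd, hf, hf', rfl⟩ := h
  exact div_ne_zero (mul_ne_zero ((map_ne_zero D.τ).mpr (hf.ne _)) (pow_ne_zero _ hd.ne))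
    (hf'.ne _)

lemma VV.virt (h : VV D u v) : Virt u := by
  obtain ⟨Φ, g, d, f, f', hΦ, hg, hd, hf, hf', rfl⟩ := h
  exact hd.virt

lemma VV.zero : VV D (0 : Gal E → ℂ) 1 := by
  obtain ⟨Φ, hΦ⟩ := exists_sys E
  obtain ⟨g, hg⟩ := exists_act D.τ hΦ
  have h1 : Virt (0 : Gal E → ℂ) := zero_mem _
  obtain ⟨d, hd⟩ := DV.exist (τ := D.τ) h1 g
  have h2 : (fun x => D.τ ((0 : Gal E → ℂ) x)) = 0 := by
    funext x
    exact map_zero D.τ
  have h3 : VV D (0 : Gal E → ℂ) _ := ⟨Φ, g, d, 1, 1, hΦ, hg, hd, IsL.zero _ _, by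
    rw [h2]; exact IsL.zero _ _, rfl⟩
  have h4 := h3.add h3
  rw [add_zero] at h4
  have h5 := h3.unique h4
  have h6 := mul_eq_left₀ h3.ne |>.mp h5.symm
  rw [← h6]
  exact h3

lemma VV.sub (h : VV D u v) (h' : VV D u' v') : VV D (u - u') (v / v') := by
  rw [sub_eq_add_neg, div_eq_mul_inv]
  exact h.add h'.neg

lemma VV.infl {E' : Ext F} [Algebra E.N E'.N] [IsScalarTower F E.N E'.N] (h : VV D u v) :
    VV D (fun g => u (rs E E' g)) v := by
  have hF := h.virt
  obtain ⟨Φ, g, d, f, f', hΦ, hg, hd, hf, hf', rfl⟩ := h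
  obtain ⟨Φ', hΦ'⟩ := exists_sys E'
  obtain ⟨g', hg'⟩ := exists_act D.τ hΦ'
  have h1 : DV D.τ (fun s => rs E E' (g' s)) u d := hd.change hΦ hg (rs_sys hΦ') (rs_act hg')
  refine ⟨Φ', g', d, f, f', hΦ', hg', h1.infl, hf.infl (fun g x => hF.conj g x), ?_, rfl⟩
  exact hf'.infl (χ := fun x => D.τ (u x)) (fun g x => by rw [hF.conj g x])

variable (D) (𝒢 : (E : Ext F) → Subgroup (Gal E) → Prop)

/-- the hypotheses -/
structure Hy : Prop where
  adm : Adm 𝒢
  ex : ∀ (E : Ext F) (H : Subgroup (Gal E)) (ψ : H →* ℂˣ), 𝒢 E H → ∃ v, VV D (ind H (lc ψ)) v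
  sig : ∀ (E : Ext F) (H : Subgroup (Gal E)) (ψ ψ' : H →* ℂˣ), 𝒢 E H →
    (∀ c : H, (c : Gal E) ∈ CC F E.N → ψ c = ψ' c) → VV D (ind H (lc ψ) - ind H (lc ψ')) 1

/-- the group of the virtual characters of a subgroup with trivial value -/
def TG {G : Type} [Group G] [Finite G] (H : Subgroup (Gal E)) (e : G ≃* H) :
    AddSubgroup (G → ℂ) where
  carrier := {f | f 1 = 0 ∧ (∀ g, (e g : Gal E) ∈ CC F E.N → f g = 0) ∧
    VV D (ind H (fun h => f (e.symm h))) 1}
  zero_mem' := by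
    refine ⟨rfl, fun g _ => rfl, ?_⟩
    have h : ind H (fun h => (0 : G → ℂ) (e.symm h)) = 0 := ind_zero H
    rw [h]
    exact VV.zero
  add_mem' := by
    rintro a b ⟨h1, h2, h3⟩ ⟨h1', h2', h3'⟩
    refine ⟨by rw [Pi.add_apply, h1, h1', add_zero], fun g hg => by
      rw [Pi.add_apply, h2 g hg, h2' g hg, add_zero], ?_⟩
    have h : ind H (fun h => (a + b) (e.symm h))
        = ind H (fun h => a (e.symm h)) + ind H (fun h => b (e.symm h)) := by
      rw [← ind_add]; rfl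
    rw [h, ← mul_one (1 : ℂ)]
    exact h3.add h3'
  neg_mem' := by
    rintro a ⟨h1, h2, h3⟩
    refine ⟨by rw [Pi.neg_apply, h1, neg_zero], fun g hg => by
      rw [Pi.neg_apply, h2 g hg, neg_zero], ?_⟩
    have h : ind H (fun h => (-a) (e.symm h)) = - ind H (fun h => a (e.symm h)) := by
      rw [← ind_neg]; rfl
    rw [h, ← inv_one]
    exact h3.neg

/-- the objects -/
def PP (G : Type) [Group G] [Finite G] (X : Set G) (T : AddSubgroup (G → ℂ)) : Prop :=
  ∃ (E : Ext F) (H : Subgroup (Gal E)) (e : G ≃* H), 𝒢 E H ∧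
    X = {g | (e g : Gal E) ∈ CC F E.N} ∧ T = TG D H e

end vv

section objects

variable {E : Ext F}

/-- the inclusion -/
def inc {G : Type} [Group G] {H : Subgroup (Gal E)} (e : G ≃* H) : G →* Gal E :=
  H.subtype.comp e.toMonoidHom

lemma inc_inj {G : Type} [Group G] {H : Subgroup (Gal E)} (e : G ≃* H) :
    Function.Injective (inc e) := H.subtype_injective.comp e.injective

lemma sn_good {𝒢 : (E : Ext F) → Subgroup (Gal E) → Prop} (h𝒢 : Adm 𝒢) {G : Type} [Group G]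
    {H : Subgroup (Gal E)} (e : G ≃* H) (hH : 𝒢 E H)
    {A : Subgroup G} (hA : Sn A) : 𝒢 E (A.map (inc e)) := by
  induction hA with
  | top =>
    have h : (⊤ : Subgroup G).map (inc e) = H := by
      ext y
      constructor
      · rintro ⟨x, -, rfl⟩
        exact (e x).2
      · intro hy
        refine ⟨e.symm ⟨y, hy⟩, Subgroup.mem_top _, ?_⟩
        change ((e (e.symm ⟨y, hy⟩) : H) : Gal E) = y
        rw [MulEquiv.apply_symm_apply]
    rw [h]
    exact hH
  | @step A B hB h ih =>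
    refine h𝒢.cyc E _ _ ih ⟨Subgroup.map_mono h.1, ?_, ?_⟩
    · rintro _ ⟨a, ha, rfl⟩ _ ⟨b, hb, rfl⟩
      refine ⟨b⁻¹ * a * b, h.2.1 a ha b hb, ?_⟩
      rw [map_mul, map_mul, map_inv]
    · rw [Subgroup.relIndex_map_map_of_injective _ _ (inc_inj e)]
      exact h.2.2

lemma ind_map {G : Type} [Group G] [Finite G] {H : Subgroup (Gal E)} (e : G ≃* H)
    (H₀ : Subgroup G) (u : H₀ → ℂ) : ind H (fun h => ind H₀ u (e.symm h))
      = ind (H₀.map (inc e)) (fun h => u ((H₀.equivMapOfInjective (inc e) (inc_inj e)).symm h)) := by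
  let f : G →* Gal E := inc e
  have hf : Function.Injective f := inc_inj e
  let e' : H₀ ≃* H₀.map f := H₀.equivMapOfInjective f hf
  have h5 := ind_comap (π := e.symm.toMonoidHom) e.symm.surjective H₀ u
  have h6 : (fun h => ind H₀ u (e.symm h))
      = ind (H₀.comap e.symm.toMonoidHom) (fun h => u ⟨e.symm.toMonoidHom h, h.2⟩) := h5
  rw [h6]
  have hle : H₀.map f ≤ H := by
    rintro y ⟨x, -, rfl⟩
    exact (e x).2
  have hA : ∀ b : H, b ∈ H₀.comap e.symm.toMonoidHom ↔ (b : Gal E) ∈ H₀.map f := by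
    intro b
    constructor
    · intro hb
      refine ⟨e.symm b, hb, ?_⟩
      change ((e (e.symm b) : H) : Gal E) = b
      rw [MulEquiv.apply_symm_apply]
    · rintro ⟨x, hx, hxb⟩
      change e.symm b ∈ H₀
      have h7 : b = e x := Subtype.ext hxb.symm
      rw [h7, MulEquiv.symm_apply_apply]
      exact hx
  have h8 := ind_tower (H₀.comap e.symm.toMonoidHom) hA hle (fun h => u (e'.symm h))
  change _ = ind (H₀.map f) (fun h => u (e'.symm h))
  rw [← h8]
  congr 1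
  funext b
  congr 1
  funext b'
  congr 1
  rw [eq_comm, MulEquiv.symm_apply_eq]
  apply Subtype.ext
  change _ = f (e.symm.toMonoidHom b')
  change _ = ((e (e.symm b') : H) : Gal E)
  rw [MulEquiv.apply_symm_apply]

variable {D : Dat F} {𝒢 : (E : Ext F) → Subgroup (Gal E) → Prop}

lemma Hy.ms (h : Hy D 𝒢) {G : Type} [Group G] [Finite G] {H : Subgroup (Gal E)} (e : G ≃* H)
    (hH : 𝒢 E H) {f : G → ℂ} (hf : f ∈ MS G) :
    ∃ v, VV D (ind H (fun h => f (e.symm h))) v := by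
  induction hf using AddSubgroup.closure_induction with
  | mem W hF =>
    obtain ⟨A, ψ, hA, rfl⟩ := hF
    rw [ind_map e A (lc ψ)]
    exact h.ex E _ (ψ.comp (A.equivMapOfInjective (inc e) (inc_inj e)).symm.toMonoidHom)
      (sn_good h.adm e hH hA)
  | zero =>
    refine ⟨1, ?_⟩
    have h : ind H (fun h => (0 : G → ℂ) (e.symm h)) = 0 := ind_zero H
    rw [h]
    exact VV.zero
  | add a b _ _ ha hb =>
    obtain ⟨v, hv⟩ := ha
    obtain ⟨v', hv'⟩ := hb
    refine ⟨v * v', ?_⟩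
    have h : ind H (fun h => (a + b) (e.symm h))
        = ind H (fun h => a (e.symm h)) + ind H (fun h => b (e.symm h)) := by
      rw [← ind_add]; rfl
    rw [h]
    exact hv.add hv'
  | neg a _ ha =>
    obtain ⟨v, hv⟩ := ha
    refine ⟨v⁻¹, ?_⟩
    have h : ind H (fun h => (-a) (e.symm h)) = - ind H (fun h => a (e.symm h)) := by
      rw [← ind_neg]; rfl
    rw [h]
    exact hv.neg

/-- the projection from the preimage -/
noncomputable def prj {E E' : Ext F} [Algebra E.N E'.N] [IsScalarTower F E.N E'.N] {G : Type} [Group G]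
    {H : Subgroup (Gal E)} (e : G ≃* H) : (H.comap (rs E E')) →* G :=
  e.symm.toMonoidHom.comp ((rs E E').subgroupComap H)

lemma prj_inc {E E' : Ext F} [Algebra E.N E'.N] [IsScalarTower F E.N E'.N] {G : Type} [Group G] {H : Subgroup (Gal E)}
    (e : G ≃* H) (x : H.comap (rs E E')) : ((e (prj e x) : H) : Gal E) = rs E E' (x : Gal E') := by
  change ((e (e.symm _) : H) : Gal E) = _
  rw [MulEquiv.apply_symm_apply]
  rfl

/-- **coverings** -/
lemma Hy.cov (h : Hy D 𝒢) {E E' : Ext F} [Algebra E.N E'.N] [IsScalarTower F E.N E'.N] {G : Type} [Group G] [Finite G]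
    {H : Subgroup (Gal E)} (e : G ≃* H) (hH : 𝒢 E H) :
    Cov (PP D 𝒢) {g | (e g : Gal E) ∈ CC F E.N} (TG D H e)
      {g : H.comap (rs E E') | (g : Gal E') ∈ CC F E'.N}
      (TG D (H.comap (rs E E')) (MulEquiv.refl _)) (prj e) := by
  have hind : ∀ u : G → ℂ,
      ind (H.comap (rs E E')) (fun h => u (prj e ((MulEquiv.refl (H.comap (rs E E'))).symm h)))
        = fun g => ind H (fun h => u (e.symm h)) (rs E E' g) := by
    intro u
    rw [ind_comap (rs_surj E E')]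
    rfl
  refine ⟨?_, ⟨E', _, MulEquiv.refl _, h.adm.up E E' H hH, rfl, rfl⟩, ?_, ?_, ?_⟩
  · intro g
    obtain ⟨g', hg'⟩ := rs_surj E E' (e g : Gal E)
    refine ⟨⟨g', by rw [Subgroup.mem_comap, hg']; exact (e g).2⟩, ?_⟩
    apply e.injective
    apply Subtype.ext
    rw [prj_inc]
    exact hg'
  · intro x hx
    change ((e (prj e x) : H) : Gal E) ∈ CC F E.N
    rw [prj_inc]
    exact rs_CC hx
  · rintro u ⟨h1, h2, h3⟩
    refine ⟨by change u (prj e 1) = 0; rw [map_one, h1], fun g hg => ?_, ?_⟩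
    · refine h2 (prj e g) ?_
      rw [prj_inc]
      exact rs_CC hg
    · rw [hind]
      exact h3.infl
  · rintro u hu ⟨h1, h2, h3⟩
    refine ⟨by have h4 : u (prj e 1) = 0 := h1; rwa [map_one] at h4, fun g hg => ?_, ?_⟩
    · obtain ⟨c', hc', hc''⟩ := CC_lift (E' := E') hg
      have h4 := h2 ⟨c', by rw [Subgroup.mem_comap, hc'']; exact (e g).2⟩ hc'
      have h5 : prj e ⟨c', by rw [Subgroup.mem_comap, hc'']; exact (e g).2⟩ = g := by
        apply e.injective
        apply Subtype.ext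
        rw [prj_inc]
        exact hc''
      change u (prj e _) = 0 at h4
      rwa [h5] at h4
    · rw [hind] at h3
      obtain ⟨v, hv⟩ := h.ms e hH hu
      have h6 := (hv.infl (E' := E')).unique h3
      rw [← h6]
      exact hv

theorem twPP (hy : Hy D 𝒢) : Tw (PP D 𝒢) where
  inv := by
    rintro G _ _ X T ⟨E, H, e, hH, rfl, rfl⟩ x ⟨φ, hφ⟩
    have h1 := isConj_sq hφ
    apply e.injective
    rw [map_mul, map_one]
    exact Subtype.ext h1
  conj := by
    rintro G _ _ X T ⟨E, H, e, hH, rfl, rfl⟩ x hx g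
    change (e (g⁻¹ * x * g) : Gal E) ∈ CC F E.N
    rw [map_mul, map_mul, map_inv]
    exact CC_conj hx (e g : Gal E)
  van := by
    rintro G _ _ X T ⟨E, H, e, hH, rfl, rfl⟩ f ⟨h1, h2, -⟩
    exact ⟨h1, h2⟩
  sub := by
    rintro G _ _ X T ⟨E, H, e, hH, rfl, rfl⟩ H₀ hH₀
    let e' : H₀ ≃* H₀.map (inc e) := H₀.equivMapOfInjective (inc e) (inc_inj e)
    refine ⟨TG D (H₀.map (inc e)) e', ⟨E, _, e', sn_good hy.adm e hH hH₀, rfl, rfl⟩, ?_⟩
    rintro u ⟨h1, h2, h3⟩
    refine ⟨ind_one' H₀ h1, fun g hg => ?_, ?_⟩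
    · refine ind_van H₀ (X := {g | (e g : Gal E) ∈ CC F E.N}) ?_ h2 hg
      intro x hx g
      change (e (g⁻¹ * x * g) : Gal E) ∈ CC F E.N
      rw [map_mul, map_mul, map_inv]
      exact CC_conj hx (e g : Gal E)
    · rw [ind_map]
      exact h3
  sig := by
    rintro G _ _ X T ⟨E, H, e, hH, rfl, rfl⟩ ψ ψ' h
    refine ⟨?_, fun g hg => ?_, ?_⟩
    · simp [lc]
    · change lc ψ g - lc ψ' g = 0
      unfold lc
      rw [h g hg, sub_self]
    · have h1 : ind H (fun h => (lc ψ - lc ψ') (e.symm h))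
          = ind H (lc (ψ.comp e.symm.toMonoidHom)) - ind H (lc (ψ'.comp e.symm.toMonoidHom)) := by
        rw [← ind_sub]; rfl
      rw [h1]
      refine hy.sig E H _ _ hH fun c hc => h _ ?_
      change ((e (e.symm c) : H) : Gal E) ∈ CC F E.N
      rw [MulEquiv.apply_symm_apply]
      exact hc
  sign := by
    rintro G _ _ X T ⟨E, H, e, hH, rfl, rfl⟩ H₀ Y hY hYc
    obtain ⟨E', i1, i2, χ, hχ, hχ'⟩ := exists_sgn E (H₀.map (inc e)) (inc e '' Y) (by
      rintro y ⟨x, hx, rfl⟩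
      exact ⟨(hY x hx).1, ⟨x, (hY x hx).2, rfl⟩⟩) (by
      rintro y ⟨x, hx, rfl⟩ h ⟨z, hz, rfl⟩
      refine ⟨z⁻¹ * x * z, hYc x hx z hz, ?_⟩
      rw [map_mul, map_mul, map_inv])
    refine ⟨H.comap (rs E E'), inferInstance, inferInstance,
      {g : H.comap (rs E E') | (g : Gal E') ∈ CC F E'.N},
      TG D (H.comap (rs E E')) (MulEquiv.refl _), prj e, hy.cov (E' := E') e hH, ?_⟩
    have hpi : ∀ x : H.comap (rs E E'), rs E E' (x : Gal E') = inc e (prj (E' := E') e x) :=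
      fun x => (prj_inc e x).symm
    have hj : ∀ x : H₀.comap (prj (E' := E') e),
        ((x : H.comap (rs E E')) : Gal E') ∈ (H₀.map (inc e)).comap (rs E E') := by
      intro x
      rw [Subgroup.mem_comap, hpi]
      exact Subgroup.mem_map_of_mem _ x.2
    let j : (H₀.comap (prj (E' := E') e)) →* ((H₀.map (inc e)).comap (rs E E')) :=
      { toFun := fun x => ⟨((x : H.comap (rs E E')) : Gal E'), hj x⟩
        map_one' := rfl
        map_mul' := fun a b => rfl }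
    refine ⟨χ.comp j, fun g => hχ _, fun x hx => ?_⟩
    have h1 := hχ' (j x) hx
    have h2 : rs E E' ((j x : (H₀.map (inc e)).comap (rs E E')) : Gal E')
        = inc e (prj (E' := E') e (x : H.comap (rs E E'))) := hpi _
    rw [h2, (inc_inj e).mem_set_image] at h1
    exact h1

/-- the fixed fields of all nilpotent subgroups are good -/
def Nice (𝒢 : (E : Ext F) → Subgroup (Gal E) → Prop) (E : Ext F) : Prop :=
  ∀ V : Subgroup (Gal E), Group.IsNilpotent V → 𝒢 E V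

/-- **Existence.** -/
theorem Hy.exist (hy : Hy D 𝒢) (hE : Nice 𝒢 E) {χ : Gal E → ℂ} (hχ : Virt χ) : ∃ v, VV D χ v := by
  have key : ∀ u ∈ PN (Gal E), ∃ v, VV D (fun g => u g * χ g) v := by
    intro u hu
    induction hu using AddSubgroup.closure_induction with
    | mem W hF =>
      obtain ⟨V, ψ, hV, rfl⟩ := hF
      have h1 : Virt (fun h : V => lc ψ h * χ h) := virt_tw ψ (hχ.comp V.subtype)
      have h2 : (fun h : V => lc ψ h * χ h) ∈ MS V := by
        refine (AddSubgroup.closure_le (MS V)).mpr ?_ (virt_mem_mon h1)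
        rintro W ⟨U, θ, -, rfl⟩
        exact AddSubgroup.subset_closure ⟨U, θ, allSn U, rfl⟩
      obtain ⟨v, hv⟩ := hy.ms (MulEquiv.refl V) (hE V hV) h2
      refine ⟨v, ?_⟩
      have h8 : ind V (fun h : V => lc ψ h * χ h) = fun g => ind V (lc ψ) g * χ g :=
        funext fun g => ind_mul V (lc ψ) (F := χ) (fun g x => hχ.conj g x) g
      have h9 : ind V (fun h : V => lc ψ h * χ h)
        = ind V (fun h => (fun h : V => lc ψ h * χ h) ((MulEquiv.refl V).symm h)) := rfl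
      rw [← h9, h8] at hv
      exact hv
    | zero =>
      refine ⟨1, ?_⟩
      have h : (fun g => (0 : Gal E → ℂ) g * χ g) = 0 := by
        funext g
        simp
      rw [h]
      exact VV.zero
    | add a b _ _ ha hb =>
      obtain ⟨v, hv⟩ := ha
      obtain ⟨v', hv'⟩ := hb
      refine ⟨v * v', ?_⟩
      have h : (fun g => (a + b) g * χ g) = (fun g => a g * χ g) + fun g => b g * χ g := by
        funext g
        simp only [Pi.add_apply, add_mul]
      rw [h]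
      exact hv.add hv'
    | neg a _ ha =>
      obtain ⟨v, hv⟩ := ha
      refine ⟨v⁻¹, ?_⟩
      have h : (fun g => (-a) g * χ g) = - fun g => a g * χ g := by
        funext g
        simp only [Pi.neg_apply, neg_mul]
      rw [h]
      exact hv.neg
  obtain ⟨v, hv⟩ := key _ (one_mem_pn (U := Gal E))
  refine ⟨v, ?_⟩
  have h : (fun g => (1 : ℂ) * χ g) = χ := by
    funext g
    rw [one_mul]
  rwa [h] at hv

/-- **The main formula.** -/
theorem Hy.formula (hy : Hy D 𝒢) (hE : Nice 𝒢 E) {E' : Ext F} [Algebra E.N E'.N] [IsScalarTower F E.N E'.N] {χ : Gal E → ℂ}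
    (hχ : Virt χ) {k : Gal E' → ℂ} (hk : k ∈ LL (Gal E')) (h1 : χ 1 = k 1)
    (hX : ∀ c ∈ CC F E'.N, χ (rs E E' c) = k c) : VV D ((fun g => χ (rs E E' g)) - k) 1 := by
  have hF : Virt ((fun g => χ (rs E E' g)) - k) :=
    sub_mem (S := AddSubgroup (Gal E' → ℂ)) (hχ.comp (rs E E')) (LL_virt hk)
  set W := (fun g => χ (rs E E' g)) - k with hFdef
  have key : ∀ u ∈ PN (Gal E), VV D (fun g => u (rs E E' g) * W g) 1 := by
    intro u hu
    induction hu using AddSubgroup.closure_induction with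
    | mem U hU =>
      obtain ⟨V, ψ, hV, rfl⟩ := hU
      have hV' : Group.IsNilpotent V := hV
      let e : V ≃* V := MulEquiv.refl V
      have hG := hE V hV
      have hP : PP D 𝒢 V {g | (e g : Gal E) ∈ CC F E.N} (TG D V e) := ⟨E, V, e, hG, rfl, rfl⟩
      have c := hy.cov (E' := E') e hG
      let V' : Subgroup (Gal E') := V.comap (rs E E')
      let ψ' : V' →* ℂˣ := ψ.comp (prj e)
      have h2 := (twPP hy).nil hP c (f := fun h : V => lc ψ h * χ h)
        (virt_tw ψ (hχ.comp V.subtype)) (k := fun h : V' => lc ψ' h * k (V'.subtype h))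
        (LL_tw V'.subtype ψ' hk) (by
          change lc ψ 1 * χ ((1 : V) : Gal E) = lc ψ' 1 * k ((1 : V') : Gal E')
          rw [Subgroup.coe_one, Subgroup.coe_one, h1]
          simp [lc]) (by
          intro x hx
          change lc ψ (prj e x) * χ (prj e x : V) = lc ψ' x * k x
          have h3 : ((prj e x : V) : Gal E) = rs E E' (x : Gal E') := prj_inc e x
          rw [h3, hX _ hx]
          rfl)
      obtain ⟨-, -, h3⟩ := h2
      have h4 : (fun g => ind V (lc ψ) (rs E E' g) * W g)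
          = ind V' (fun h : V' => lc ψ' h * W h) := by
        funext g
        have h5 := ind_mul V' (lc ψ') (F := W) (fun g x => hF.conj g x) g
        rw [h5]
        congr 1
        have h6 := congrFun (ind_comap (rs_surj E E') V (lc ψ)) g
        exact h6
      change VV D (fun g => ind V (lc ψ) (rs E E' g) * W g) 1
      rw [h4]
      have h7 : (fun h : V' => lc ψ' h * W h) = fun h : V' =>
          ((fun g : V' => (fun h : V => lc ψ h * χ h) (prj e g))
            - fun h : V' => lc ψ' h * k (V'.subtype h)) ((MulEquiv.refl V').symm h) := by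
        funext h
        change lc ψ' h * (χ (rs E E' h) - k h)
          = lc ψ (prj e h) * χ (prj e h : V) - lc ψ' h * k h
        have h8 : ((prj e h : V) : Gal E) = rs E E' (h : Gal E') := prj_inc e h
        rw [h8, mul_sub]
        rfl
      rw [h7]
      exact h3
    | zero =>
      have h : (fun g => (0 : Gal E → ℂ) (rs E E' g) * W g) = 0 := by
        funext g
        simp
      rw [h]
      exact VV.zero
    | add a b _ _ ha hb =>
      have h : (fun g => (a + b) (rs E E' g) * W g)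
          = (fun g => a (rs E E' g) * W g) + fun g => b (rs E E' g) * W g := by
        funext g
        simp only [Pi.add_apply, add_mul]
      rw [h, ← mul_one (1 : ℂ)]
      exact ha.add hb
    | neg a _ ha =>
      have h : (fun g => (-a) (rs E E' g) * W g) = - fun g => a (rs E E' g) * W g := by
        funext g
        simp only [Pi.neg_apply, neg_mul]
      rw [h, ← inv_one]
      exact ha.neg
  have hv := key _ (one_mem_pn (U := Gal E))
  have h : (fun g => (1 : ℂ) * W g) = W := by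
    funext g
    rw [one_mul]
  rwa [h] at hv

end objects

end Pool.Agent.Run7.h810.DF
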