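import Mathlib
import Pool.Agent.Run7.h810.DF.Inv

/-!
# Deligne's relation for Artin twists of motives over number fields
-/

set_option autoImplicit false
set_option linter.unusedSectionVars false
set_option linter.unusedVariables false

namespace Pool.Agent.Run7.h810.DF

open NumberField NumberField.ComplexEmbedding Pool.Agent.R389 Pool.Agent.K4H74.ST
  Pool.Agent.W446.AS Pool.Agent.H302R2 Pool.Agent.H302R3 Pool.Agent.H541R3.ART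
  Pool.Agent.K4H74
open Pool.Agent.Run7.h810.DL (isChar_comp virt_sub ind_one' ind_van LL LL_tw LL_virt virt_tw Cov Tw
  MS Sn allSn ind_tower lc_virt lc_conj mult)

variable {F : Type} [Field F] [NumberField F]

section

variable {E : Ext F} {τ : ℂ ≃+* ℂ}

lemma CC_iff (E : Ext F) (c : Gal E) : c ∈ CC F E.N ↔ ∃ φ : E.N →+* ℂ, IsCC φ c := by
  constructor
  · rintro ⟨φ, hφ⟩
    exact ⟨φ, fun y => hφ.eq y⟩
  · rintro ⟨φ, hφ⟩
    exact ⟨φ, by ext y; exact (hφ y).symm⟩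

lemma isLin_ext (H : Subgroup (Gal E)) (ψ : H →* ℂˣ) : IsLin H (ext H (lc ψ)) := by
  refine ⟨?_, fun x hx y hy => ?_, fun x hx => ext_not _ _ hx⟩
  · rw [ext_mem _ _ H.one_mem]
    have h : (⟨1, H.one_mem⟩ : H) = 1 := rfl
    rw [h]
    simp [lc]
  · rw [ext_mem _ _ hx, ext_mem _ _ hy, ext_mem _ _ (H.mul_mem hx hy)]
    have h : ψ ⟨x * y, H.mul_mem hx hy⟩ = ψ ⟨x, hx⟩ * ψ ⟨y, hy⟩ := map_mul ψ ⟨x, hx⟩ ⟨y, hy⟩
    rw [lc, h, Units.val_mul]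
    rfl

lemma isInd_of {H : Subgroup (Gal E)} {ψ : H →* ℂˣ} {n : ℕ} {ρ : Rep E n}
    (h : chr ρ = ind H (lc ψ)) : IsInd H (ext H (lc ψ)) ρ :=
  ⟨isLin_ext H ψ, fun g => by rw [h, ind]⟩

lemma agree_ext {H : Subgroup (Gal E)} {ψ ψ' : H →* ℂˣ}
    (h : ∀ c : H, (c : Gal E) ∈ CC F E.N → ψ c = ψ' c) :
    Agree (ext H (lc ψ)) (ext H (lc ψ')) := by
  intro φ c hc
  by_cases hH : c ∈ H
  · rw [ext_mem _ _ hH, ext_mem _ _ hH, lc, lc, h ⟨c, hH⟩ ((CC_iff E c).mpr ⟨φ, hc⟩)]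
  · rw [ext_not _ _ hH, ext_not _ _ hH]

lemma DV.of_rep {n : ℕ} (ρ : Rep E n) (g : (F →+* ℂ) → Gal E) : DV τ g (chr ρ) (dt τ g ρ) := by
  refine ⟨n, 0, ρ, 1, ?_, ?_⟩
  · have h : chr (1 : Rep E 0) = 0 := by
      funext x
      simp [chr, Matrix.trace]
    rw [h, sub_zero]
  · have h : dt τ g (1 : Rep E 0) = 1 := Finset.prod_eq_one fun _ _ => Matrix.det_isEmpty
    rw [h, div_one]

end

/-- Deligne's relation, for a single `τ`, with quotients of periods -/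
def Del₀ (τ : ℂ ≃+* ℂ) (r : ℕ) (m : ℂ) (t : Ideal (𝓞 F) → ℕ → ℂ) (b : ℝ) (α : ℂ)
    (β : (F →+* ℂ) → ℂ) {E : Ext F} {n : ℕ} (ρ : Rep E n) : Prop :=
  ∀ (Φ : (F →+* ℂ) → (E.N →+* ℂ)) (x : E.N) (d : (F →+* ℂ) → ℕ) (f f' : ℂ → ℂ), IsSys Φ →
    res Φ x ρ ≠ 0 → (∀ σ c, IsCC (Φ σ) c → chr ρ c = n - 2 * d σ) →
    (∀ σ, (¬ ∃ c : Gal E, IsCC (Φ σ) c) → d σ = 0) →
    IsL t b (chr ρ) f → IsL (fun p k => τ (t p k)) b (chr (conj τ ρ)) f' →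
    τ (val f m / res Φ x ρ ^ r) =
      α ^ n * (∏ σ : F →+* ℂ, β σ ^ d σ) * (val f' m / res Φ x (conj τ ρ) ^ r)

/-- the data for `M`, `τ` and `m` -/
def dat (τ : ℂ ≃+* ℂ) (r : ℕ) (m : ℂ) (t : Ideal (𝓞 F) → ℕ → ℂ) (b : ℝ) : Dat F :=
  ⟨τ, r, m, t, fun p k => τ (t p k), b⟩

section

variable {τ : ℂ ≃+* ℂ} {r : ℕ} {m : ℂ} {t : Ideal (𝓞 F) → ℕ → ℂ} {b : ℝ} {E : Ext F}

lemma VV.of_rep {n : ℕ} {ρ : Rep E n} {Φ : (F →+* ℂ) → (E.N →+* ℂ)} {g : (F →+* ℂ) → Gal E}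
    (hΦ : IsSys Φ) (hg : IsAct τ Φ g) {f f' : ℂ → ℂ} (hf : IsL t b (chr ρ) f)
    (hf' : IsL (fun p k => τ (t p k)) b (chr (conj τ ρ)) f') :
    VV (dat τ r m t b) (chr ρ) (τ (val f m) * dt τ g ρ ^ r / val f' m) := by
  refine ⟨Φ, g, _, f, f', hΦ, hg, DV.of_rep ρ g, hf, ?_, rfl⟩
  have h := chr_conj τ ρ
  change IsL (fun p k => τ (t p k)) b (fun x => τ (chr ρ x)) f'
  rw [← h]
  exact hf'

lemma del_iff {n : ℕ} {ρ : Rep E n} {Φ : (F →+* ℂ) → (E.N →+* ℂ)} {g : (F →+* ℂ) → Gal E}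
    (hg : IsAct τ Φ g) {f f' : ℂ → ℂ}
    (hf : IsL t b (chr ρ) f) (hf' : IsL (fun p k => τ (t p k)) b (chr (conj τ ρ)) f') {x : E.N}
    (hx : res Φ x ρ ≠ 0) (A : ℂ) :
    τ (val f m / res Φ x ρ ^ r) = A * (val f' m / res Φ x (conj τ ρ) ^ r) ↔
    τ (val f m) * dt τ g ρ ^ r / val f' m = A := by
  rw [res_conj τ hg]
  have a3 := hf'.ne m
  have a5 := dt_ne τ g ρ
  have a7 : τ (res Φ x ρ) ≠ 0 := (map_ne_zero τ).mpr hx
  rw [map_div₀, map_pow]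
  generalize τ (val f m) = u at *
  generalize val f' m = u' at *
  generalize dt τ g ρ = w at *
  generalize τ (res Φ x ρ) = y at *
  have c1 := pow_ne_zero r a7
  have c6 := pow_ne_zero r a5
  rw [mul_pow, ← mul_div_assoc, div_eq_div_iff c1 (mul_ne_zero c6 c1), div_eq_iff a3]
  constructor
  · intro h
    apply mul_left_cancel₀ c1
    linear_combination h
  · intro h
    linear_combination y ^ r * h

lemma VV.of_rel {n : ℕ} {ρ ρ' : Rep E n} (h : Rel τ r m t b ρ ρ') {f₁ f₂ f₁' f₂' : ℂ → ℂ}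
    (h₁ : IsL t b (chr ρ) f₁) (h₂ : IsL t b (chr ρ') f₂)
    (h₁' : IsL (fun p k => τ (t p k)) b (chr (conj τ ρ)) f₁')
    (h₂' : IsL (fun p k => τ (t p k)) b (chr (conj τ ρ')) f₂') :
    VV (dat τ r m t b) (chr ρ - chr ρ') 1 := by
  obtain ⟨Φ, hΦ⟩ := exists_sys E
  obtain ⟨g, hg⟩ := exists_act τ hΦ
  obtain ⟨x, hx⟩ := exists_res E
  have h0 := (VV.of_rep (r := r) (m := m) hΦ hg h₁ h₁').sub
    (VV.of_rep (r := r) (m := m) hΦ hg h₂ h₂')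
  have h1 := h Φ x f₁ f₂ f₁' f₂' hΦ (hx Φ n ρ) (hx Φ n ρ') h₁ h₂ h₁' h₂'
  have key : (τ (val f₁ m) * dt τ g ρ ^ r / val f₁' m)
      / (τ (val f₂ m) * dt τ g ρ' ^ r / val f₂' m) = 1 := by
    rw [res_conj τ hg, res_conj τ hg, map_div₀, map_div₀, map_pow, map_div₀] at h1
    have a1 : τ (val f₁ m) ≠ 0 := (map_ne_zero τ).mpr (h₁.ne m)
    have a2 : τ (val f₂ m) ≠ 0 := (map_ne_zero τ).mpr (h₂.ne m)
    have a3 := h₁'.ne m
    have a4 := h₂'.ne m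
    have a5 := dt_ne τ g ρ
    have a6 := dt_ne τ g ρ'
    have a7 : τ (res Φ x ρ) ≠ 0 := (map_ne_zero τ).mpr (hx Φ n ρ)
    have a8 : τ (res Φ x ρ') ≠ 0 := (map_ne_zero τ).mpr (hx Φ n ρ')
    have h2 : (dt τ g ρ * τ (res Φ x ρ) / (dt τ g ρ' * τ (res Φ x ρ'))) ^ r
        = (dt τ g ρ / dt τ g ρ') ^ r * (τ (res Φ x ρ) / τ (res Φ x ρ')) ^ r := by
      rw [← mul_pow]
      congr 1
      field_simp
    rw [h2] at h1
    have a9 : (τ (res Φ x ρ) / τ (res Φ x ρ')) ^ r ≠ 0 := pow_ne_zero _ (div_ne_zero a7 a8)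
    have a10 : (dt τ g ρ / dt τ g ρ') ^ r ≠ 0 := pow_ne_zero _ (div_ne_zero a5 a6)
    rw [div_eq_div_iff a9 (mul_ne_zero a10 a9)] at h1
    have h3 : τ (val f₁ m) / τ (val f₂ m) * (dt τ g ρ / dt τ g ρ') ^ r
        = val f₁' m / val f₂' m := by
      apply mul_right_cancel₀ a9
      rw [mul_assoc]
      exact h1
    rw [div_pow] at h3
    have a11 := pow_ne_zero r a6
    have a12 := pow_ne_zero r a5
    rw [div_div_div_eq, div_eq_one_iff_eq (mul_ne_zero a3 (mul_ne_zero a2 a11))]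
    field_simp at h3
    linear_combination h3
  rw [key] at h0
  exact h0

lemma VV.nsmul {D : Dat F} {u : Gal E → ℂ} {v : ℂ} (hv : VV D u v) (n : ℕ) :
    VV D (n • u) (v ^ n) := by
  induction n with
  | zero =>
    rw [zero_smul, pow_zero]
    exact VV.zero
  | succ n ih =>
    rw [succ_nsmul, pow_succ]
    exact ih.add hv

lemma VV.sum {D : Dat F} {ι : Type} (s : Finset ι) {u : ι → Gal E → ℂ} {v : ι → ℂ}
    (hv : ∀ i, VV D (u i) (v i)) : VV D (∑ i ∈ s, u i) (∏ i ∈ s, v i) := by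
  classical
  induction s using Finset.induction_on with
  | empty =>
    rw [Finset.sum_empty, Finset.prod_empty]
    exact VV.zero
  | insert a s ha ih =>
    rw [Finset.sum_insert ha, Finset.prod_insert ha]
    exact (hv a).add ih

/-- the hypotheses of the main theorem -/
def HC (𝒢 : (E : Ext F) → Subgroup (Gal E) → Prop) (τ : ℂ ≃+* ℂ) (r : ℕ) (m : ℂ)
    (t : Ideal (𝓞 F) → ℕ → ℂ) (b : ℝ) : Prop :=
  ∀ (E : Ext F) (H : Subgroup (Gal E)) (ψ ψ' : Gal E → ℂ) (n : ℕ) (ρ ρ' : Rep E n),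
      𝒢 E H → Agree ψ ψ' → IsInd H ψ ρ → IsInd H ψ' ρ' →
        Con τ t b ρ ∧ Con τ t b ρ' ∧ Rel τ r m t b ρ ρ'

lemma HC.hy {𝒢 : (E : Ext F) → Subgroup (Gal E) → Prop} (h𝒢 : Adm 𝒢) (hC : HC 𝒢 τ r m t b) :
    Hy (dat τ r m t b) 𝒢 := by
  have hex : ∀ (E : Ext F) (H : Subgroup (Gal E)) (ψ : H →* ℂˣ) (n : ℕ) (ρ : Rep E n), 𝒢 E H →
      chr ρ = ind H (lc ψ) → Con τ t b ρ :=
    fun E H ψ n ρ hH hρ => (hC E H _ _ n ρ ρ hH (fun _ _ _ => rfl) (isInd_of hρ) (isInd_of hρ)).1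
  refine ⟨h𝒢, ?_, ?_⟩
  · intro E H ψ hH
    obtain ⟨n, ρ, hρ⟩ := isChar_chr (SC.isChar_ind H (IsChar.lc ψ))
    obtain ⟨⟨f, hf⟩, f', hf'⟩ := hex E H ψ n ρ hH hρ
    obtain ⟨Φ, hΦ⟩ := exists_sys E
    obtain ⟨g, hg⟩ := exists_act τ hΦ
    rw [← hρ]
    exact ⟨_, VV.of_rep hΦ hg hf hf'⟩
  · intro E H ψ ψ' hH h
    obtain ⟨n, ρ, hρ⟩ := isChar_chr (SC.isChar_ind H (IsChar.lc ψ))
    obtain ⟨n', ρ', hρ'⟩ := isChar_chr (SC.isChar_ind H (IsChar.lc ψ'))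
    have hn : n' = n := by
      have h1 : (n' : ℂ) = n := by
        rw [← chr_one ρ, ← chr_one ρ', hρ, hρ']
        have h2 : ind H (lc ψ' - lc ψ) 1 = 0 := ind_one' H (by simp [lc])
        rw [ind_sub, Pi.sub_apply] at h2
        exact sub_eq_zero.mp h2
      exact_mod_cast h1
    subst hn
    obtain ⟨⟨f₁, h₁⟩, f₁', h₁'⟩ := hex E H ψ _ ρ hH hρ
    obtain ⟨⟨f₂, h₂⟩, f₂', h₂'⟩ := hex E H ψ' _ ρ' hH hρ'
    have h3 := (hC E H _ _ _ ρ ρ' hH (agree_ext h) (isInd_of hρ) (isInd_of hρ')).2.2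
    have h4 := VV.of_rel h3 h₁ h₂ h₁' h₂'
    rw [hρ, hρ'] at h4
    exact h4

/-- **The main theorem.** -/
theorem main {𝒢 : (E : Ext F) → Subgroup (Gal E) → Prop} (h𝒢 : Adm 𝒢)
    (hC : HC 𝒢 τ r m t b) {E₀ : Ext F} {s : (F →+* ℂ) → (Gal E₀ →* ℂˣ)} (hs : ∀ v, Sg (s v))
    (hs' : ∀ (v : F →+* ℂ) (φ : E₀.N →+* ℂ) (c : Gal E₀), IsCC φ c →
        (s v c = -1 ↔ φ.comp (algebraMap F E₀.N) = v)) {α : ℂ} {γ : (F →+* ℂ) → ℂ}
    (hα : VV (dat τ r m t b) (lc (1 : Gal E₀ →* ℂˣ)) α)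
    (hγ : ∀ σ, VV (dat τ r m t b) (lc (s σ)) (γ σ)) (E : Ext F) (hE : Nice 𝒢 E) (n : ℕ)
    (ρ : Rep E n) : Con τ t b ρ ∧ Del₀ τ r m t b α (fun σ => γ σ / α) ρ := by
  classical
  have hy : Hy (dat τ r m t b) 𝒢 := hC.hy h𝒢
  -- the formula
  have hform : ∀ (v : ℂ) (d : (F →+* ℂ) → ℕ), VV (dat τ r m t b) (chr ρ) v →
      (∀ (φ : E.N →+* ℂ) (c : Gal E), IsCC φ c →
        chr ρ c = n - 2 * d (φ.comp (algebraMap F E.N))) →
      v = α ^ n * ∏ σ, (γ σ / α) ^ d σ := by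
    intro v d hv hc
    obtain ⟨E₃, i1, i2, i3, i4⟩ := exists_comp E E₀
    have hll : ∀ ψ : Gal E₃ →* ℂˣ, lc ψ ∈ LL (Gal E₃) := fun ψ =>
      AddSubgroup.subset_closure ⟨ψ, rfl⟩
    let s₃ : (F →+* ℂ) → (Gal E₃ →* ℂˣ) := fun σ => (s σ).comp (rs E₀ E₃)
    let k : Gal E₃ → ℂ := n • lc (1 : Gal E₃ →* ℂˣ) + ∑ σ, d σ • (lc (s₃ σ) - lc 1)
    have hk : k ∈ LL (Gal E₃) :=
      add_mem (nsmul_mem (hll 1) n)
        (sum_mem fun σ _ => nsmul_mem (sub_mem (hll _) (hll 1)) (d σ))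
    have h1 := hy.formula hE (E' := E₃) (chr_isChar ρ).virt hk (by
      rw [chr_one]
      change (n : ℂ) = (n • lc (1 : Gal E₃ →* ℂˣ) + ∑ σ, d σ • (lc (s₃ σ) - lc 1)) 1
      rw [Pi.add_apply, Finset.sum_apply, Finset.sum_eq_zero, add_zero]
      · simp [lc]
      · intro σ _
        simp [lc]) (by
      intro c hcc
      obtain ⟨φ, hφ⟩ := (CC_iff E₃ c).mp hcc
      have e1 : IsCC (φ.comp (algebraMap E.N E₃.N)) (rs E E₃ c) := by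
        intro y
        change φ (algebraMap E.N E₃.N (rs E E₃ c y)) = star (φ (algebraMap E.N E₃.N y))
        rw [rs_apply, hφ]
      have e2 : IsCC (φ.comp (algebraMap E₀.N E₃.N)) (rs E₀ E₃ c) := by
        intro y
        change φ (algebraMap E₀.N E₃.N (rs E₀ E₃ c y)) = star (φ (algebraMap E₀.N E₃.N y))
        rw [rs_apply, hφ]
      have e3 : (φ.comp (algebraMap E.N E₃.N)).comp (algebraMap F E.N)
          = φ.comp (algebraMap F E₃.N) := by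
        rw [RingHom.comp_assoc, ← IsScalarTower.algebraMap_eq]
      have e4 : (φ.comp (algebraMap E₀.N E₃.N)).comp (algebraMap F E₀.N)
          = φ.comp (algebraMap F E₃.N) := by
        rw [RingHom.comp_assoc, ← IsScalarTower.algebraMap_eq]
      set κ : F →+* ℂ := φ.comp (algebraMap F E₃.N) with hκ
      rw [hc _ _ e1, e3]
      change (n : ℂ) - 2 * d κ = (n • lc (1 : Gal E₃ →* ℂˣ) + ∑ σ, d σ • (lc (s₃ σ) - lc 1)) c
      rw [Pi.add_apply, Finset.sum_apply, Finset.sum_eq_single κ]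
      · have h5 : s κ (rs E₀ E₃ c) = -1 := (hs' κ _ _ e2).mpr e4
        have h6 : s₃ κ c = -1 := h5
        change (n : ℂ) - 2 * d κ = n • lc 1 c + d κ • (lc (s₃ κ) c - lc 1 c)
        simp only [lc, h6, MonoidHom.one_apply, Units.val_one, Units.val_neg, nsmul_eq_mul]
        ring
      · intro σ _ hσ
        have h5 : s σ (rs E₀ E₃ c) ≠ -1 := fun h => hσ ((hs' σ _ _ e2).mp h ▸ e4)
        have h6 : s₃ σ c = 1 := (hs σ _).resolve_right h5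
        change d σ • (lc (s₃ σ) c - lc 1 c) = 0
        simp only [lc, h6, MonoidHom.one_apply, sub_self, smul_zero]
      · intro h
        exact absurd (Finset.mem_univ _) h)
    have g1 : VV (dat τ r m t b) (lc (1 : Gal E₃ →* ℂˣ)) α := by
      have h := hα.infl (E' := E₃)
      exact h
    have g2 : ∀ σ, VV (dat τ r m t b) (lc (s₃ σ)) (γ σ) := fun σ => (hγ σ).infl (E' := E₃)
    have h2 : VV (dat τ r m t b) k (α ^ n * ∏ σ, (γ σ / α) ^ d σ) :=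
      (g1.nsmul n).add (VV.sum Finset.univ fun σ => ((g2 σ).sub g1).nsmul (d σ))
    have h3 := (hv.infl (E' := E₃)).sub h2
    have h4 := h3.unique h1
    exact (div_eq_one_iff_eq h2.ne).mp h4
  -- existence
  obtain ⟨v, hv⟩ := hy.exist hE (chr_isChar ρ).virt
  refine ⟨⟨?_, ?_⟩, ?_⟩
  · obtain ⟨φ, g, d, f, f', hΦ, hg, hd, hf, hf', -⟩ := hv
    exact ⟨f, hf⟩
  · obtain ⟨φ, g, d, f, f', hΦ, hg, hd, hf, hf', -⟩ := hv
    refine ⟨f', ?_⟩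
    rw [chr_conj]
    exact hf'
  · intro Φ x d f f' hΦ hx hd _ hf hf'
    obtain ⟨g, hg⟩ := exists_act τ hΦ
    rw [del_iff hg hf hf' hx]
    refine hform _ d (VV.of_rep hΦ hg hf hf') fun φ c hc => ?_
    obtain ⟨h, hh⟩ := exists_aut (Φ (φ.comp (algebraMap F E.N))) φ (hΦ _)
    have h1 : IsCC (Φ (φ.comp (algebraMap F E.N))) (h * c * h⁻¹) := by
      intro y
      have h2 : h (h⁻¹ y) = y := by
        change (h * h⁻¹) y = y
        rw [mul_inv_cancel]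
        rfl
      change Φ _ (h (c (h⁻¹ y))) = _
      rw [hh, hc, ← hh, h2]
    rw [← chr_class ρ c h]
    exact hd _ _ h1

lemma isCC_sq {φ : E.N →+* ℂ} {c : Gal E} (h : IsCC φ c) : c * c = 1 := by
  ext y
  apply φ.injective
  change φ (c (c y)) = φ y
  rw [h, h, star_star]

lemma isCC_conj {φ : E.N →+* ℂ} {c : Gal E} (h : IsCC φ c) (g : Gal E) :
    IsCC (φ.comp (g : E.N →+* E.N)) (g⁻¹ * c * g) := by
  intro y
  change φ (g (g⁻¹ (c (g y)))) = star (φ (g y))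
  rw [← h]
  congr 1
  exact g.apply_symm_apply _

/-- the multiplicities -/
lemma exists_mult (Φ : (F →+* ℂ) → (E.N →+* ℂ)) {n : ℕ} (ρ : Rep E n) :
    ∃ d : (F →+* ℂ) → ℕ, (∀ σ c, IsCC (Φ σ) c → chr ρ c = n - 2 * d σ) ∧
      ∀ σ, (¬ ∃ c : Gal E, IsCC (Φ σ) c) → d σ = 0 := by
  have h : ∀ σ, ∃ d : ℕ, (∀ c, IsCC (Φ σ) c → chr ρ c = n - 2 * d) ∧
      ((¬ ∃ c : Gal E, IsCC (Φ σ) c) → d = 0) := by
    intro σ
    by_cases hc : ∃ c : Gal E, IsCC (Φ σ) c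
    · obtain ⟨c, hc⟩ := hc
      obtain ⟨a, d, h1, h2⟩ := mult (chr_isChar ρ) (isCC_sq hc)
      refine ⟨d, fun c' hc' => ?_, fun h => absurd ⟨c, hc⟩ h⟩
      have h3 : c' = c := by
        ext y
        apply (Φ σ).injective
        rw [hc', hc]
      rw [h3, h2]
      rw [chr_one] at h1
      rw [h1]
      ring
    · exact ⟨0, fun c h => absurd ⟨c, h⟩ hc, fun _ => rfl⟩
  choose d hd hd' using h
  exact ⟨d, hd, hd'⟩

lemma adm_all : Adm (F := F) fun _ _ => True :=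
  ⟨fun _ => trivial, fun _ _ _ _ _ _ => trivial, fun _ _ _ _ _ => trivial⟩

end

end Pool.Agent.Run7.h810.DF
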