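import Mathlib
import Pool.Agent.Run7.h810.DF.Final

/-!
# The periods
-/

set_option autoImplicit false
set_option linter.unusedSectionVars false
set_option linter.unusedVariables false

namespace Pool.Agent.Run7.h810.DF

open NumberField NumberField.ComplexEmbedding Pool.Agent.R389 Pool.Agent.K4H74.ST
  Pool.Agent.W446.AS Pool.Agent.H302R2 Pool.Agent.H302R3 Pool.Agent.H541R3.ART
  Pool.Agent.K4H74
open Pool.Agent.Run7.h810.DL (isChar_comp virt_sub ind_one' ind_van LL LL_tw LL_virt virt_tw Cov Tw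
  MS Sn allSn ind_tower lc_virt lc_conj mult)

variable {F : Type} [Field F] [NumberField F]

/-- linear characters as representations -/
noncomputable def lr (E : Ext F) (ψ : Gal E →* ℂˣ) : Rep E 1 where
  toFun g := Matrix.scalar (Fin 1) ((ψ g : ℂˣ) : ℂ)
  map_one' := by rw [map_one, Units.val_one, map_one]
  map_mul' a b := by rw [map_mul, Units.val_mul, map_mul]

lemma chr_lr (E : Ext F) (ψ : Gal E →* ℂˣ) : chr (lr E ψ) = lc ψ := by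
  funext g
  change (Matrix.scalar (Fin 1) ((ψ g : ℂˣ) : ℂ)).trace = _
  simp [Matrix.trace, lc]

lemma conj_lr (τ : ℂ ≃+* ℂ) (E : Ext F) {ψ : Gal E →* ℂˣ} (h : Sg ψ) :
    conj τ (lr E ψ) = lr E ψ := by
  refine MonoidHom.ext fun g => ?_
  rw [conj_apply]
  change (Matrix.scalar (Fin 1) ((ψ g : ℂˣ) : ℂ)).map τ = Matrix.scalar (Fin 1) ((ψ g : ℂˣ) : ℂ)
  ext i j
  obtain rfl := Subsingleton.elim i j
  rcases h g with h1 | h1
  · rw [h1]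
    simp
  · rw [h1]
    simp [Matrix.map_apply]

section

variable {C : Type} [Field C] {t : Ideal (𝓞 F) → ℕ → C} {r : ℕ} {m : ℂ} {b : ℝ}

/-- **The periods exist.** -/
theorem per {𝒢 : (E : Ext F) → Subgroup (Gal E) → Prop} (h𝒢 : Adm 𝒢)
    (hC : ∀ (e : C →+* ℂ) (τ : ℂ ≃+* ℂ), HC 𝒢 τ r m (fun p k => e (t p k)) b) :
    ∃ (A : (C →+* ℂ) → ℂ) (B : (C →+* ℂ) → (F →+* ℂ) → ℂ), (∀ e, A e ≠ 0) ∧
      (∀ e σ, B e σ ≠ 0) ∧ ∀ (e : C →+* ℂ) (τ : ℂ ≃+* ℂ) (E : Ext F), Nice 𝒢 E →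
        ∀ (n : ℕ) (ρ : Rep E n), Con τ (fun p k => e (t p k)) b ρ ∧ Del r m t b A B e τ ρ := by
  classical
  obtain ⟨E₀, s, hs, hs'⟩ := exists_signs F
  have hex : ∀ (e : C →+* ℂ) (ψ : Gal E₀ →* ℂˣ), ∃ f, IsL (fun p k => e (t p k)) b (lc ψ) f := by
    intro e ψ
    have h : ind ⊤ (lc (ψ.comp (Subgroup.subtype ⊤))) = lc ψ :=
      ind_top (lc ψ) (fun g x => lc_conj _ g x)
    have h1 := (hC e (RingEquiv.refl ℂ) E₀ ⊤ _ _ 1 (lr E₀ ψ) (lr E₀ ψ) (h𝒢.base E₀)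
      (fun _ _ _ => rfl) (isInd_of ((chr_lr E₀ ψ).trans h.symm))
      (isInd_of ((chr_lr E₀ ψ).trans h.symm))).1.1
    rwa [chr_lr] at h1
  choose f hf using hex
  obtain ⟨Φ, hΦ⟩ := exists_sys E₀
  obtain ⟨x, hx⟩ := exists_res E₀
  let a : (C →+* ℂ) → (Gal E₀ →* ℂˣ) → ℂ := fun e ψ => val (f e ψ) m / res Φ x (lr E₀ ψ) ^ r
  have ha : ∀ e ψ, a e ψ ≠ 0 := fun e ψ =>
    div_ne_zero ((hf e ψ).ne m) (pow_ne_zero _ (hx Φ 1 _))
  have key : ∀ (e : C →+* ℂ) (τ : ℂ ≃+* ℂ) (ψ : Gal E₀ →* ℂˣ), Sg ψ →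
      VV (dat τ r m (fun p k => e (t p k)) b) (lc ψ) (τ (a e ψ) / a ((τ : ℂ →+* ℂ).comp e) ψ) := by
    intro e τ ψ hψ
    obtain ⟨g, hg⟩ := exists_act τ hΦ
    have h1 : IsL (fun p k => e (t p k)) b (chr (lr E₀ ψ)) (f e ψ) := by
      rw [chr_lr]
      exact hf e ψ
    have h2 : IsL (fun p k => τ (e (t p k))) b (chr (conj τ (lr E₀ ψ)))
        (f ((τ : ℂ →+* ℂ).comp e) ψ) := by
      rw [conj_lr τ E₀ hψ, chr_lr]
      exact hf _ ψ
    have h3 := VV.of_rep (r := r) (m := m) hΦ hg h1 h2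
    have h4 := (del_iff (r := r) (m := m) hg h1 h2 (hx Φ 1 _)
      (τ (a e ψ) / a ((τ : ℂ →+* ℂ).comp e) ψ)).mp (by
        rw [conj_lr τ E₀ hψ]
        exact (div_mul_cancel₀ _ (ha _ _)).symm)
    rw [h4, chr_lr] at h3
    exact h3
  refine ⟨fun e => a e 1, fun e σ => a e (s σ) / a e 1, fun e => ha e 1,
    fun e σ => div_ne_zero (ha _ _) (ha _ _), fun e τ E hE n ρ => ?_⟩
  have h1 : Sg (1 : Gal E₀ →* ℂˣ) := fun g => Or.inl rfl
  obtain ⟨h2, h3⟩ := main h𝒢 (hC e τ) hs hs' (key e τ 1 h1) (fun σ => key e τ (s σ) (hs σ)) E hE n ρ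
  refine ⟨h2, fun Φ₁ x₁ d f₁ f₁' hΦ₁ hx₁ hd hd' hf₁ hf₁' => ?_⟩
  have h4 := h3 Φ₁ x₁ d f₁ f₁' hΦ₁ hx₁ hd hd' hf₁ hf₁'
  set e' : C →+* ℂ := (τ : ℂ →+* ℂ).comp e with he'
  have h5 : ∏ σ : F →+* ℂ, (τ (a e (s σ)) / a e' (s σ) / (τ (a e 1) / a e' 1)) ^ d σ
      = (∏ σ : F →+* ℂ, τ (a e (s σ) / a e 1) ^ d σ) / ∏ σ : F →+* ℂ, (a e' (s σ) / a e' 1) ^ d σ := by
    rw [← Finset.prod_div_distrib]
    refine Finset.prod_congr rfl fun σ _ => ?_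
    rw [← div_pow, map_div₀ τ (a e (s σ)) (a e 1), div_div_div_comm]
  have h6 : τ (val f₁ m / (res Φ₁ x₁ ρ ^ r * a e 1 ^ n * ∏ σ, (a e (s σ) / a e 1) ^ d σ))
      = τ (val f₁ m / res Φ₁ x₁ ρ ^ r) / (τ (a e 1) ^ n * ∏ σ, τ (a e (s σ) / a e 1) ^ d σ) := by
    rw [mul_assoc, ← div_div, map_div₀ τ (val f₁ m / res Φ₁ x₁ ρ ^ r), map_mul, map_pow, map_prod]
    simp only [map_pow]
  rw [h6, h4]
  simp only []
  rw [h5]
  have n1 : τ (a e 1) ^ n ≠ 0 := pow_ne_zero _ ((map_ne_zero τ).mpr (ha _ _))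
  have n2 : ∏ σ, τ (a e (s σ) / a e 1) ^ d σ ≠ 0 := Finset.prod_ne_zero_iff.mpr fun σ _ =>
    pow_ne_zero _ ((map_ne_zero τ).mpr (div_ne_zero (ha _ _) (ha _ _)))
  generalize ∏ σ, τ (a e (s σ) / a e 1) ^ d σ = p1 at *
  generalize ∏ σ : F →+* ℂ, (a e' (s σ) / a e' 1) ^ d σ = p2 at *
  generalize res Φ₁ x₁ (conj τ ρ) ^ r = p3 at *
  generalize τ (a e 1) = p4 at *
  rw [div_pow]
  generalize p4 ^ n = p5 at *
  generalize a e' 1 ^ n = p6 at *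
  rw [div_mul_div_comm, div_mul_div_comm, div_div, ← mul_div_mul_left (val f₁' m) (p3 * p6 * p2)
    (mul_ne_zero n1 n2)]
  congr 1
  ring

/-- **The equivalence.** -/
theorem main_iff (t : Ideal (𝓞 F) → ℕ → C) (r : ℕ) (m : ℂ) (b : ℝ) :
    Deligne r m t b (fun _ => True) ↔ Quo r m t b (fun _ _ => True) := by
  constructor
  · rintro ⟨A, B, hA, hB, h⟩ e τ E H ψ ψ' n ρ ρ' _ hψ hρ hρ'
    refine ⟨(h e τ E trivial n ρ).1, (h e τ E trivial n ρ').1, ?_⟩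
    intro Φ x f₁ f₂ f₁' f₂' hΦ hx hx' h₁ h₂ h₁' h₂'
    obtain ⟨d, hd, hd'⟩ := exists_mult Φ ρ
    have h3 : ∀ σ c, IsCC (Φ σ) c → chr ρ' c = n - 2 * d σ := by
      intro σ c hc
      rw [← hd σ c hc, hρ.2, hρ'.2]
      congr 1
      refine finsum_congr fun y => ?_
      exact (hψ _ _ (isCC_conj hc y)).symm
    have e1 := (h e τ E trivial n ρ).2 Φ x d f₁ f₁' hΦ hx hd hd' h₁ h₁'
    have e2 := (h e τ E trivial n ρ').2 Φ x d f₂ f₂' hΦ hx' h3 hd' h₂ h₂'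
    set e' : C →+* ℂ := (τ : ℂ →+* ℂ).comp e with he'
    have n1 := h₁.ne m
    have n2 := h₂.ne m
    have n1' := h₁'.ne m
    have n2' := h₂'.ne m
    obtain ⟨g, hg⟩ := exists_act τ hΦ
    have m1 : res Φ x (conj τ ρ) ≠ 0 := by
      rw [res_conj τ hg]
      exact mul_ne_zero (dt_ne τ g ρ) ((map_ne_zero τ).mpr hx)
    have m2 : res Φ x (conj τ ρ') ≠ 0 := by
      rw [res_conj τ hg]
      exact mul_ne_zero (dt_ne τ g ρ') ((map_ne_zero τ).mpr hx')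
    have k3 : ∀ e, A e ^ n ≠ 0 := fun e => pow_ne_zero _ (hA e)
    have k4 : ∀ e, ∏ σ, B e σ ^ d σ ≠ 0 := fun e =>
      Finset.prod_ne_zero_iff.mpr fun σ _ => pow_ne_zero _ (hB e σ)
    have e3 : val f₁ m / val f₂ m / (res Φ x ρ / res Φ x ρ') ^ r
        = (val f₁ m / (res Φ x ρ ^ r * A e ^ n * ∏ σ, B e σ ^ d σ))
          / (val f₂ m / (res Φ x ρ' ^ r * A e ^ n * ∏ σ, B e σ ^ d σ)) := by
      have k1 := pow_ne_zero r hx
      have k2 := pow_ne_zero r hx'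
      have k3' := k3 e
      have k4' := k4 e
      generalize ∏ σ, B e σ ^ d σ = p1 at *
      generalize A e ^ n = p2 at *
      rw [div_pow]
      field_simp
    have e4 : val f₁' m / val f₂' m / (res Φ x (conj τ ρ) / res Φ x (conj τ ρ')) ^ r
        = (val f₁' m / (res Φ x (conj τ ρ) ^ r * A e' ^ n * ∏ σ, B e' σ ^ d σ))
          / (val f₂' m / (res Φ x (conj τ ρ') ^ r * A e' ^ n * ∏ σ, B e' σ ^ d σ)) := by
      have k1 := pow_ne_zero r m1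
      have k2 := pow_ne_zero r m2
      have k3' := k3 e'
      have k4' := k4 e'
      generalize ∏ σ, B e' σ ^ d σ = p1 at *
      generalize A e' ^ n = p2 at *
      rw [div_pow]
      field_simp
    rw [e3, map_div₀, e1, e2, e4]
  · intro hC
    obtain ⟨A, B, hA, hB, h⟩ := per (F := F) (t := t) (r := r) (m := m) (b := b)
      adm_all hC
    exact ⟨A, B, hA, hB, fun e τ E _ n ρ => h e τ E (fun _ _ => trivial) n ρ⟩

lemma sn_good' {𝒢 : (E : Ext F) → Subgroup (Gal E) → Prop} (h𝒢 : Adm 𝒢) (E : Ext F)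
    {A : Subgroup (Gal E)} (hA : Sn A) : 𝒢 E A := by
  induction hA with
  | top => exact h𝒢.base E
  | @step A B hB h ih => exact h𝒢.cyc E _ _ ih h

lemma nice_of {𝒢 : (E : Ext F) → Subgroup (Gal E) → Prop} (h𝒢 : Adm 𝒢) (E : Ext F)
    (hE : Group.IsNilpotent (Gal E) ∨ ∀ V : Subgroup (Gal E), Group.IsNilpotent V → 𝒢 E V) :
    Nice 𝒢 E := by
  rcases hE with h | h
  · intro V _
    exact sn_good' h𝒢 E (allSn V)
  · exact h

end

end Pool.Agent.Run7.h810.DF
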