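import Pool.Agent.Run7.h810.DF.Basic

/-!
Unions of rotated and translated copies of the triangular lattice: dense forests for almost all
angles, and lines avoiding the union when all the copies are commensurable.
-/

namespace Pool.Agent.Run7.h810.DF

open Complex ComplexConjugate MeasureTheory

/-- The rotation factor of an angle. -/
noncomputable def rot (a : AddCircle (2 * Real.pi)) : ℂ := (AddCircle.toCircle a : ℂ)

lemma norm_rot (a : AddCircle (2 * Real.pi)) : ‖rot a‖ = 1 :=
  Circle.norm_coe (AddCircle.toCircle a)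

lemma conj_rot_mul (a b : AddCircle (2 * Real.pi)) : conj (rot a) * rot b = rot (b - a) := by
  unfold rot
  rw [sub_eq_add_neg, AddCircle.toCircle_add, AddCircle.toCircle_neg]
  rw [Circle.coe_mul, Circle.coe_inv_eq_conj, mul_comm]

lemma rot_injective : Function.Injective rot := by
  intro a b h
  exact AddCircle.injective_toCircle (by positivity) (Subtype.ext h)

/-- The two copies have no common direction. -/
def Good (a b : AddCircle (2 * Real.pi)) : Prop :=
  ∀ μ1 ∈ lattice, ∀ μ2 ∈ lattice, (conj (rot a * μ1) * (rot b * μ2)).im = 0 → μ1 = 0 ∨ μ2 = 0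

/-- The exceptional differences of angles. -/
def Exc : Set (AddCircle (2 * Real.pi)) :=
  ⋃ μ1 ∈ lattice, ⋃ μ2 ∈ lattice, {δ | μ1 ≠ 0 ∧ μ2 ≠ 0 ∧ (rot δ * (conj μ1 * μ2)).im = 0}

lemma finite_aux (z : ℂ) (hz : z ≠ 0) :
    {δ : AddCircle (2 * Real.pi) | (rot δ * z).im = 0}.Finite := by
  have h1 : {δ : AddCircle (2 * Real.pi) | (rot δ * z).im = 0} ⊆
      rot ⁻¹' {(‖z‖ : ℂ) / z, -(‖z‖ : ℂ) / z} := by
    intro δ hδ
    have h2 : (rot δ * z).im = 0 := hδ
    have h3 : rot δ * z = ((rot δ * z).re : ℂ) := by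
      apply Complex.ext
      · simp
      · rw [h2]; simp
    have h4 : |(rot δ * z).re| = ‖z‖ := by
      have := congrArg norm h3
      rw [norm_mul, norm_rot, one_mul, Complex.norm_real, Real.norm_eq_abs] at this
      exact this.symm
    rcases abs_choice (rot δ * z).re with h5 | h5
    · left
      rw [h5] at h4
      rw [h4] at h3
      rw [eq_div_iff hz]
      exact h3
    · right
      rw [h5] at h4
      have h6 : (rot δ * z).re = -‖z‖ := by linarith
      rw [h6] at h3
      rw [Set.mem_singleton_iff, eq_div_iff hz, h3]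
      push_cast
      ring
  exact ((Set.toFinite _).preimage rot_injective.injOn).subset h1

lemma countable_exc : Exc.Countable := by
  unfold Exc
  refine countable_lattice.biUnion fun μ1 _ => countable_lattice.biUnion fun μ2 _ => ?_
  by_cases h1 : μ1 = 0
  · convert Set.countable_empty
    ext δ
    simp [h1]
  · by_cases h2 : μ2 = 0
    · convert Set.countable_empty
      ext δ
      simp [h2]
    · have h3 : conj μ1 * μ2 ≠ 0 := mul_ne_zero (by simpa using h1) h2
      exact ((finite_aux _ h3).subset (fun δ hδ => hδ.2.2)).countable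

lemma good_of_not_exc (a b : AddCircle (2 * Real.pi)) (h : b - a ∉ Exc) : Good a b := by
  intro μ1 hμ1 μ2 hμ2 him
  by_contra hc
  push Not at hc
  apply h
  unfold Exc
  refine Set.mem_biUnion hμ1 (Set.mem_biUnion hμ2 ⟨hc.1, hc.2, ?_⟩)
  rw [← conj_rot_mul]
  rw [map_mul] at him
  have : conj (rot a) * rot b * (conj μ1 * μ2) = conj (rot a) * conj μ1 * (rot b * μ2) := by ring
  rw [this]
  exact him

instance fact_two_pi : Fact (0 < 2 * Real.pi) := ⟨by positivity⟩

lemma null_singleton (e : AddCircle (2 * Real.pi)) :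
    (volume : Measure (AddCircle (2 * Real.pi))) {e} = 0 := by
  have h := AddCircle.measurePreserving_mk (2 * Real.pi) 0
  rw [← h.measure_preimage (measurableSet_singleton e).nullMeasurableSet]
  have hc : ((fun x : ℝ => (x : AddCircle (2 * Real.pi))) ⁻¹' {e}).Countable := by
    obtain ⟨x0, rfl⟩ := QuotientAddGroup.mk_surjective e
    refine (Set.countable_range (fun n : ℤ => x0 + n * (2 * Real.pi))).mono ?_
    intro x hx
    have hx' : (x : AddCircle (2 * Real.pi)) = (x0 : AddCircle (2 * Real.pi)) := hx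
    have hx2 : ((x - x0 : ℝ) : AddCircle (2 * Real.pi)) = 0 := by
      rw [AddCircle.coe_sub, hx', sub_self]
    obtain ⟨n, hn⟩ := (AddCircle.coe_eq_zero_iff (2 * Real.pi)).mp hx2
    refine ⟨n, ?_⟩
    simp only [zsmul_eq_mul] at hn
    show x0 + n * (2 * Real.pi) = x
    linarith
  have h1 := hc.measure_zero (volume : Measure ℝ)
  exact Measure.restrict_apply_eq_zero' measurableSet_Ioc |>.mpr
    (measure_mono_null Set.inter_subset_left h1)

lemma null_pair (e : AddCircle (2 * Real.pi)) :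
    (volume : Measure (AddCircle (2 * Real.pi) × AddCircle (2 * Real.pi)))
      {q | q.2 - q.1 = e} = 0 := by
  have hmeas : MeasurableSet {q : AddCircle (2 * Real.pi) × AddCircle (2 * Real.pi) |
      q.2 - q.1 = e} := by
    have : IsClosed {q : AddCircle (2 * Real.pi) × AddCircle (2 * Real.pi) | q.2 - q.1 = e} :=
      isClosed_eq (by fun_prop) continuous_const
    exact this.measurableSet
  rw [Measure.volume_eq_prod, Measure.measure_prod_null hmeas]
  filter_upwards with a
  have : (Prod.mk a ⁻¹' {q : AddCircle (2 * Real.pi) × AddCircle (2 * Real.pi) | q.2 - q.1 = e})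
      = {e + a} := by
    ext b
    simp [sub_eq_iff_eq_add]
  rw [this]
  exact null_singleton _

/-- Almost every pair of angles is good. -/
lemma ae_good : ∀ᵐ θ : Fin 2 → AddCircle (2 * Real.pi), Good (θ 0) (θ 1) := by
  have h1 : ∀ᵐ q : AddCircle (2 * Real.pi) × AddCircle (2 * Real.pi), ∀ e ∈ Exc,
      ¬ (q.2 - q.1 = e) := by
    rw [ae_ball_iff countable_exc]
    intro e _
    rw [ae_iff]
    simpa using null_pair e
  have h2 := (volume_preserving_finTwoArrow (AddCircle (2 * Real.pi))).quasiMeasurePreserving.ae h1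
  filter_upwards [h2] with θ hθ
  apply good_of_not_exc
  intro he
  exact hθ _ he rfl

/-- For a good pair of angles, every long segment comes near to the union of the two copies,
with a length not depending on the translations. -/
lemma near_TBG (θ : Fin 2 → AddCircle (2 * Real.pi)) (h : Good (θ 0) (θ 1)) (ε : ℝ)
    (hε : 0 < ε) : ∃ T : ℝ, 0 < T ∧ ∀ x : Fin 2 → ℂ, ∀ p u : ℂ, ‖u‖ = 1 →
      ∃ t : ℝ, 0 ≤ t ∧ t ≤ T ∧ ∃ y ∈ TBG 2 x θ, ‖p + t * u - y‖ < ε := by
  obtain ⟨T, hT, hd⟩ := dense_two (rot (θ 0)) (rot (θ 1)) (norm_rot _) (norm_rot _) h ε hε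
  refine ⟨2 * T, by positivity, ?_⟩
  intro x p u hu
  obtain ⟨t, ht, h1⟩ := hd u hu (p + T * u - x 0) (p + T * u - x 1)
  have ht' := abs_le.mp ht
  refine ⟨T + t, by linarith, by linarith, ?_⟩
  rcases h1 with ⟨μ, hμ, h1⟩ | ⟨μ, hμ, h1⟩
  · refine ⟨rot (θ 0) * μ + x 0, ⟨0, μ, hμ, rfl⟩, ?_⟩
    convert h1 using 2
    push_cast
    ring
  · refine ⟨rot (θ 1) * μ + x 1, ⟨1, μ, hμ, rfl⟩, ?_⟩
    convert h1 using 2
    push_cast
    ring

/-! ### Lines avoiding the union -/

/-- If the imaginary parts of `conj w * y`, `y ∈ Y`, lie in a closed set that is not everything,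
then some line of direction `w` stays away from `Y`. -/
lemma strip_line (Y : Set ℂ) (w : ℂ) (hw : ‖w‖ = 1) (C : Set ℝ) (hC : IsClosed C)
    (hne : ∃ s, s ∉ C) (hY : ∀ y ∈ Y, (conj w * y).im ∈ C) :
    ∃ (p : ℂ) (δ : ℝ), 0 < δ ∧ ∀ t : ℝ, ∀ y ∈ Y, δ ≤ ‖p + t * w - y‖ := by
  obtain ⟨s, hs⟩ := hne
  obtain ⟨δ, hδ, hball⟩ := Metric.isOpen_iff.mp hC.isOpen_compl s hs
  refine ⟨w * (s * I), δ, hδ, ?_⟩
  intro t y hy
  have hww : conj w * w = 1 := by
    rw [mul_comm, Complex.mul_conj, Complex.normSq_eq_norm_sq, hw]; simp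
  have h1 : (conj w * (w * (s * I) + t * w - y)).im = s - (conj w * y).im := by
    have : conj w * (w * (s * I) + t * w - y) = s * I + t - conj w * y := by
      linear_combination (s * I + t : ℂ) * hww
    rw [this]
    simp
  have h2 : |s - (conj w * y).im| ≤ ‖w * (s * I) + t * w - y‖ := by
    rw [← h1]
    refine le_trans (Complex.abs_im_le_norm _) ?_
    rw [norm_mul, Complex.norm_conj, hw, one_mul]
  refine le_trans ?_ h2
  by_contra hlt
  push Not at hlt
  have h3 : (conj w * y).im ∈ Metric.ball s δ := by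
    rw [Metric.mem_ball, Real.dist_eq, abs_sub_comm]
    exact hlt
  exact hball h3 (hY y hy)

/-- The set `c + sℤ`. -/
def prog (c s : ℝ) : Set ℝ := Set.range (fun n : ℤ => c + s * n)

lemma closed_prog (c s : ℝ) (hs : s ≠ 0) : IsClosed (prog c s) := by
  have h : prog c s = ((Homeomorph.mulLeft₀ s hs).trans (Homeomorph.addLeft c)) ''
      (Set.range ((↑) : ℤ → ℝ)) := by
    ext z
    simp [prog]
  rw [h, Homeomorph.isClosed_image]
  exact Int.isClosedEmbedding_coe_real.isClosed_range

lemma countable_prog (c s : ℝ) : (prog c s).Countable := Set.countable_range _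

/-- A union of commensurable rotated copies avoids the neighbourhood of some line. -/
lemma avoid_of_comm (k : ℕ) (x : Fin k → ℂ) (θ : Fin k → AddCircle (2 * Real.pi))
    (w : ℂ) (hw : ‖w‖ = 1)
    (h : ∀ i, ∃ a ∈ lattice, ∃ b ∈ lattice, a ≠ 0 ∧ rot (θ i) * a = w * b) :
    ∃ (p : ℂ) (δ : ℝ), 0 < δ ∧ ∀ t : ℝ, ∀ y ∈ TBG k x θ, δ ≤ ‖p + t * w - y‖ := by
  choose a ha b hb ha0 hab using h
  choose N hN hNa using fun i => normSq_int (ha i) (ha0 i)
  have hww : conj w * w = 1 := by
    rw [mul_comm, Complex.mul_conj, Complex.normSq_eq_norm_sq, hw]; simp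
  refine strip_line _ w hw (⋃ i, prog ((conj w * x i).im) (Real.sqrt 3 / (2 * N i))) ?_ ?_ ?_
  · refine isClosed_iUnion_of_finite fun i => closed_prog _ _ ?_
    have h1 := sqrt3_pos
    have h2 : (0 : ℝ) < N i := by exact_mod_cast hN i
    positivity
  · by_contra hc
    push Not at hc
    have h1 : (⋃ i, prog ((conj w * x i).im) (Real.sqrt 3 / (2 * N i))) = Set.univ :=
      Set.eq_univ_of_forall hc
    have h2 : (Set.univ : Set ℝ).Countable := by
      rw [← h1]
      exact Set.countable_iUnion fun i => countable_prog _ _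
    exact Cardinal.not_countable_real h2
  · rintro y ⟨i, μ, hμ, rfl⟩
    refine Set.mem_iUnion.mpr ⟨i, ?_⟩
    have hNi : (0 : ℝ) < N i := by exact_mod_cast hN i
    have hNc : (N i : ℂ) ≠ 0 := by exact_mod_cast (hN i).ne'
    obtain ⟨m, n, hmn⟩ := mul_mem (mul_mem (hb i) (conj_mem (ha i))) hμ
    refine ⟨n, ?_⟩
    have h1 : (N i : ℂ) * (conj w * (rot (θ i) * μ)) = m + n * om := by
      rw [← hNa i, ← hmn]
      linear_combination (conj (a i) * μ * conj w) * hab i
        + (b i * conj (a i) * μ) * hww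
    have h2 : (N i : ℝ) * (conj w * (rot (θ i) * μ)).im = n * (Real.sqrt 3 / 2) := by
      have h3 := congrArg Complex.im h1
      simp [om_im] at h3
      simpa using h3
    show (conj w * x i).im + Real.sqrt 3 / (2 * N i) * n = (conj w * (rot (θ i) * μ + x i)).im
    rw [mul_add, Complex.add_im]
    have h4 : (conj w * (rot (θ i) * μ)).im = Real.sqrt 3 / (2 * N i) * n := by
      have h5 : (conj w * (rot (θ i) * μ)).im = n * (Real.sqrt 3 / 2) / N i := by
        rw [eq_div_iff hNi.ne']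
        linarith
      rw [h5]
      field_simp
    rw [h4]
    ring

/-! ### Uniform discreteness forces commensurability -/

lemma comm_of_separated (w0 w1 x0 x1 : ℂ) (h0 : ‖w0‖ = 1) (h1 : ‖w1‖ = 1) (r : ℝ) (hr : 0 < r)
    (h : ∀ a ∈ lattice, ∀ b ∈ lattice, w0 * a + x0 ≠ w1 * b + x1 →
      r ≤ ‖(w0 * a + x0) - (w1 * b + x1)‖) :
    ∃ a ∈ lattice, ∃ b ∈ lattice, a ≠ 0 ∧ w1 * a = w0 * b := by
  by_contra hc
  push Not at hc
  have hw0 : w0 ≠ 0 := by
    intro h; rw [h] at h0; simp at h0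
  have hw1 : w1 ≠ 0 := by
    intro h; rw [h] at h1; simp at h1
  choose b hb hd using fun n : ℕ => covering' w1 hw1 (w0 * n)
  let f : ℕ → ℂ := fun n => w0 * n - w1 * b n
  have hfb : ∀ n, f n ∈ Metric.closedBall (0 : ℂ) 2 := by
    intro n
    have := hd n
    rw [h1, mul_one] at this
    simpa [f] using this
  have hinj : ∀ n m, f n = f m → n = m := by
    intro n m hnm
    by_contra hne
    have e1 : w1 * (b n - b m) = w0 * ((n : ℂ) - m) := by
      have : w0 * n - w1 * b n = w0 * m - w1 * b m := hnm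
      linear_combination (-1 : ℂ) * this
    have e2 : b n - b m ≠ 0 := by
      intro h3
      rw [h3, mul_zero] at e1
      have h4 : ((n : ℂ) - m) = 0 := by
        rcases mul_eq_zero.mp e1.symm with h5 | h5
        · exact absurd h5 hw0
        · exact h5
      apply hne
      exact_mod_cast sub_eq_zero.mp h4
    exact hc _ (sub_mem (hb n) (hb m)) _ (sub_mem (nat_mem n) (nat_mem m)) e2 e1
  obtain ⟨z, _, φ, hφ, hlim⟩ := (isCompact_closedBall (0 : ℂ) 2).tendsto_subseq hfb
  have hcau := hlim.cauchySeq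
  rw [Metric.cauchySeq_iff'] at hcau
  obtain ⟨M, hM⟩ := hcau (r / 4) (by positivity)
  have h3 := hM (M + 1) (by omega)
  simp only [Function.comp] at h3
  set s := f (φ (M + 1)) - f (φ M) with hs
  have hs0 : s ≠ 0 := by
    intro h4
    have h5 := hinj _ _ (sub_eq_zero.mp h4)
    have h6 := hφ.injective h5
    omega
  have hsr : ‖s‖ < r / 4 := by
    rw [hs, ← dist_eq_norm]
    exact h3
  obtain ⟨ν, hν, hcov⟩ := covering' s hs0 (x1 - x0 + (r / 2 : ℝ))
  set A : ℂ := ((φ (M + 1) : ℕ) : ℂ) - (φ M : ℕ) with hA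
  set B : ℂ := b (φ (M + 1)) - b (φ M) with hB
  have hAm : A ∈ lattice := sub_mem (nat_mem _) (nat_mem _)
  have hBm : B ∈ lattice := sub_mem (hb _) (hb _)
  have hsAB : s = w0 * A - w1 * B := by
    rw [hs, hA, hB]
    simp only [f]
    ring
  have key : (w0 * (A * ν) + x0) - (w1 * (B * ν) + x1)
      = ((r / 2 : ℝ) : ℂ) - ((x1 - x0 + (r / 2 : ℝ)) - s * ν) := by
    rw [hsAB]; ring
  have hlt : ‖(x1 - x0 + ((r / 2 : ℝ) : ℂ)) - s * ν‖ < r / 2 := by linarith
  have hr2 : ‖((r / 2 : ℝ) : ℂ)‖ = r / 2 := by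
    rw [Complex.norm_real, Real.norm_eq_abs, abs_of_pos (by positivity)]
  have hne : w0 * (A * ν) + x0 ≠ w1 * (B * ν) + x1 := by
    intro h4
    have h5 : ((r / 2 : ℝ) : ℂ) = (x1 - x0 + (r / 2 : ℝ)) - s * ν := by
      have := key
      rw [h4, sub_self] at this
      exact (sub_eq_zero.mp this.symm)
    rw [← h5, hr2] at hlt
    exact lt_irrefl _ hlt
  have h6 := h _ (mul_mem hAm hν) _ (mul_mem hBm hν) hne
  rw [key] at h6
  have h7 := norm_sub_le ((r / 2 : ℝ) : ℂ) ((x1 - x0 + (r / 2 : ℝ)) - s * ν)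
  rw [hr2] at h7
  linarith

end Pool.Agent.Run7.h810.DF
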